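import Mathlib

set_option autoImplicit false

open Finset

namespace Pool.Agent.MP_f5ca18_al.H67

/-- exponent attached to a unit. -/
def ex {N : ℕ} (a : (ZMod N)ˣ) : ℕ := (a : ZMod N).val

lemma ex_mul {N : ℕ} (a b : (ZMod N)ˣ) : ex (a * b) ≡ ex a * ex b [MOD N] := by
  unfold ex
  rw [Units.val_mul, ZMod.val_mul]
  exact Nat.mod_modEq _ _

lemma ex_coprime {N : ℕ} (a : (ZMod N)ˣ) : (ex a).Coprime N := ZMod.val_coe_unit_coprime a

lemma exists_ex {N : ℕ} [NeZero N] {n : ℕ} (hn : n ∣ N) (c : ℕ) (hc : c.Coprime n) :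
    ∃ h : (ZMod N)ˣ, ex h ≡ c [MOD n] := by
  obtain ⟨h, hh⟩ := ZMod.unitsMap_surjective hn (ZMod.unitOfCoprime c hc)
  refine ⟨h, ?_⟩
  have h1 := congrArg (fun u : (ZMod n)ˣ => (u : ZMod n)) hh
  simp only [ZMod.unitsMap_val, ZMod.coe_unitOfCoprime] at h1
  rw [← ZMod.natCast_eq_natCast_iff, ← h1, ex, ZMod.natCast_val]

lemma norm_of_pow_eq_one {z : ℂ} {n : ℕ} (hn : n ≠ 0) (h : z ^ n = 1) : ‖z‖ = 1 := by
  have h1 : ‖z‖ ^ n = 1 := by rw [← norm_pow, h, norm_one]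
  exact (pow_eq_one_iff_of_nonneg (norm_nonneg z) hn).1 h1

lemma conj_of_pow_eq_one {z : ℂ} {n : ℕ} (hn : n ≠ 0) (h : z ^ n = 1) :
    (starRingEnd ℂ) z = z⁻¹ := by
  rw [Complex.inv_def, Complex.normSq_eq_norm_sq, norm_of_pow_eq_one hn h]
  simp

lemma geom_zero {w : ℂ} {p : ℕ} (h : w ^ p = 1) (h1 : w ≠ 1) : ∑ k ∈ range p, w ^ k = 0 := by
  have := mul_geom_sum w p
  rw [h, sub_self] at this
  exact (mul_eq_zero.1 this).resolve_left (sub_ne_zero.2 h1)

lemma sq_norm_eq (z : ℂ) : ((‖z‖ ^ 2 : ℝ) : ℂ) = z * (starRingEnd ℂ) z := by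
  rw [Complex.mul_conj, Complex.normSq_eq_norm_sq]

/-- Parseval identity. -/
lemma parseval {θ : ℂ} {p : ℕ} (hp : p ≠ 0) (hθ : IsPrimitiveRoot θ p) (z : ℕ → ℂ) :
    ∑ k ∈ range p, ‖∑ j ∈ range p, θ ^ (j * k) * z j‖ ^ 2 = p * ∑ j ∈ range p, ‖z j‖ ^ 2 := by
  have hθ0 : θ ≠ 0 := hθ.ne_zero hp
  have hc : (starRingEnd ℂ) θ = θ⁻¹ := conj_of_pow_eq_one hp hθ.pow_eq_one
  apply Complex.ofReal_injective
  push_cast
  have e1 : ∀ k, ((‖∑ j ∈ range p, θ ^ (j * k) * z j‖ : ℝ) : ℂ) ^ 2 =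
      ∑ i ∈ range p, ∑ j ∈ range p, (θ ^ i * (θ ^ j)⁻¹) ^ k * (z i * (starRingEnd ℂ) (z j)) := by
    intro k
    rw [← Complex.ofReal_pow, sq_norm_eq, map_sum, sum_mul_sum]
    refine sum_congr rfl fun i _ => sum_congr rfl fun j _ => ?_
    rw [map_mul, map_pow, hc, mul_pow, pow_mul, pow_mul, inv_pow, inv_pow]
    ring
  simp_rw [e1]
  rw [sum_comm, mul_sum]
  refine sum_congr rfl fun i hi => ?_
  rw [sum_comm, sum_eq_single i]
  · rw [mul_inv_cancel₀ (pow_ne_zero _ hθ0), ← Complex.ofReal_pow, sq_norm_eq]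
    simp
  · intro j hj hji
    rw [← sum_mul, geom_zero, zero_mul]
    · rw [mul_pow, inv_pow, ← pow_mul, ← pow_mul, mul_comm i, mul_comm j, pow_mul, pow_mul,
        hθ.pow_eq_one]
      simp
    · intro h
      rw [mul_inv_eq_one₀ (pow_ne_zero _ hθ0)] at h
      exact hji (hθ.pow_inj (mem_range.1 hi) (mem_range.1 hj) h).symm
  · intro h
    exact absurd hi h

lemma coprime_A {p m : ℕ} (hpm : p ∣ m) (k : ℕ) : (1 + k * m).Coprime (p * m) := by
  have h : (1 + k * m).Coprime m := by simp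
  exact Nat.Coprime.mul_right (h.of_dvd_right hpm) h

lemma exists_B {N : ℕ} [NeZero N] {p m : ℕ} (hp : p.Prime) (hpm : ¬ p ∣ m) (hN : p * m ∣ N)
    (b : ℕ) (hb : ¬ p ∣ b) : ∃ h : (ZMod N)ˣ, ex h ≡ b [MOD p] ∧ ex h ≡ 1 [MOD m] := by
  have hco : p.Coprime m := (Nat.Prime.coprime_iff_not_dvd hp).2 hpm
  obtain ⟨c, hc1, hc2⟩ := Nat.chineseRemainder hco b 1
  have h1 : c.Coprime p := by
    rw [Nat.coprime_comm, Nat.Prime.coprime_iff_not_dvd hp]
    intro h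
    exact hb ((hc1.dvd_iff dvd_rfl).1 h)
  have h2 : c.Coprime m := by
    have := hc2.gcd_eq
    simpa [Nat.Coprime] using this
  obtain ⟨h, hh⟩ := exists_ex hN c (Nat.Coprime.mul_right h1 h2)
  exact ⟨h, (hh.of_mul_right m).trans hc1, (hh.of_mul_left p).trans hc2⟩

lemma sum_mul_right {N : ℕ} [NeZero N] {M : Type*} [AddCommMonoid M] (f : (ZMod N)ˣ → M)
    (h : (ZMod N)ˣ) : ∑ a, f (a * h) = ∑ a, f a :=
  Fintype.sum_equiv (Equiv.mulRight h) _ _ fun _ => rfl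

/-- splitting of a root of unity into its `p`-part and its prime to `p` part. -/
lemma split_root {R : Type*} [CommMonoid R] {p m : ℕ} (hco : p.Coprime m) {w : R}
    (hw : w ^ (p * m) = 1) : ∃ u v : R, u ^ p = 1 ∧ v ^ m = 1 ∧ w = u * v ∧
      (u = 1 → w ^ m = 1) := by
  obtain ⟨c, hc1, hc2⟩ := Nat.chineseRemainder hco 1 0
  obtain ⟨e, he1, he2⟩ := Nat.chineseRemainder hco 0 1
  have h1 : m ∣ c := (Nat.modEq_zero_iff_dvd).1 hc2
  have h2 : p ∣ e := (Nat.modEq_zero_iff_dvd).1 he1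
  have hu : (w ^ c) ^ p = 1 := by
    obtain ⟨k, rfl⟩ := h1
    rw [← pow_mul, show m * k * p = p * m * k by ring, pow_mul, hw, one_pow]
  have hv : (w ^ e) ^ m = 1 := by
    obtain ⟨k, rfl⟩ := h2
    rw [← pow_mul, show p * k * m = p * m * k by ring, pow_mul, hw, one_pow]
  have hs : w = w ^ c * w ^ e := by
    rw [← pow_add]
    have : c + e ≡ 1 [MOD p * m] :=
      (Nat.modEq_and_modEq_iff_modEq_mul hco).1 ⟨hc1.add he1, by simpa using hc2.add he2⟩
    rw [pow_eq_pow_of_modEq this hw, pow_one]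
  refine ⟨w ^ c, w ^ e, hu, hv, hs, fun h => ?_⟩
  rw [hs, h, one_mul, hv]

/-- Ramanujan sums of roots of unity of large order are small. -/
lemma ramanujan {N : ℕ} [NeZero N] (P : ℕ) {η : ℂ} (hη : η ^ N = 1)
    (hP : η ^ P.factorial ≠ 1) :
    P * ‖∑ a : (ZMod N)ˣ, η ^ ex a‖ ≤ Fintype.card (ZMod N)ˣ := by
  have hN : N ≠ 0 := NeZero.ne N
  set n := orderOf η with hn
  have hnN : n ∣ N := orderOf_dvd_of_pow_eq_one hη
  have hn0 : n ≠ 0 := fun h => hN (by simpa [h] using hnN)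
  have hprim : IsPrimitiveRoot η n := IsPrimitiveRoot.orderOf η
  have hpow : ∀ a h : (ZMod N)ˣ, η ^ ex (a * h) = (η ^ ex a) ^ ex h := fun a h => by
    rw [pow_eq_pow_of_modEq (ex_mul a h) hη, pow_mul]
  have hprim' : ∀ a : (ZMod N)ˣ, IsPrimitiveRoot (η ^ ex a) n := fun a =>
    hprim.pow_of_coprime _ ((ex_coprime a).of_dvd_right hnN)
  by_cases hsq : Squarefree n
  · have : ∃ p, p.Prime ∧ p ∣ n ∧ P < p := by
      by_contra hc
      push Not at hc
      apply hP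
      apply orderOf_dvd_iff_pow_eq_one.1
      rw [← hn, ← Nat.prod_primeFactors_of_squarefree hsq]
      have : P.factorial = ∏ i ∈ Finset.Icc 1 P, i := by
        rw [← Finset.prod_range_add_one_eq_factorial, Finset.range_eq_Ico,
          Finset.prod_Ico_add' (fun i => i) 0 P 1]
        rfl
      rw [this]
      refine Finset.prod_dvd_prod_of_subset _ _ _ fun q hq => ?_
      have hq' := Nat.mem_primeFactors.1 hq
      exact Finset.mem_Icc.2 ⟨hq'.1.one_le, hc q hq'.1 hq'.2.1⟩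
    obtain ⟨p, hp, ⟨m, hm⟩, hPp⟩ := this
    have hpm : ¬ p ∣ m := by
      rintro ⟨k, rfl⟩
      exact hp.not_isUnit (hsq p ⟨k, by rw [hm]; ring⟩)
    have hco : p.Coprime m := (Nat.Prime.coprime_iff_not_dvd hp).2 hpm
    have hex : ∀ b ∈ range (p - 1), ∃ h : (ZMod N)ˣ, ex h ≡ b + 1 [MOD p] ∧ ex h ≡ 1 [MOD m] :=
      fun b hb => exists_B hp hpm (hm ▸ hnN) (b + 1)
        (Nat.not_dvd_of_pos_of_lt (by omega) (by have := mem_range.1 hb; omega))
    choose! h hh using hex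
    have key : ∀ a : (ZMod N)ˣ, ‖∑ b ∈ range (p - 1), η ^ ex (a * h b)‖ = 1 := by
      intro a
      obtain ⟨u, v, hu, hv, huv, hu1⟩ := split_root hco (hm ▸ (hprim' a).pow_eq_one)
      have hune : u ≠ 1 := fun h1 => by
        have h2 := (hprim' a).dvd_of_pow_eq_one _ (hu1 h1)
        rw [hm] at h2
        have hm0 : m ≠ 0 := fun h => hn0 (by rw [hm, h, mul_zero])
        have := Nat.le_of_dvd (Nat.pos_of_ne_zero hm0) h2
        have := hp.two_le
        nlinarith [Nat.pos_of_ne_zero hm0]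
      have e : ∀ b ∈ range (p - 1), η ^ ex (a * h b) = u ^ (b + 1) * v := fun b hb => by
        rw [hpow, huv, mul_pow, pow_eq_pow_of_modEq (hh b hb).1 hu,
          pow_eq_pow_of_modEq (hh b hb).2 hv, pow_one]
      rw [sum_congr rfl e, ← sum_mul]
      have hg := geom_zero hu hune
      obtain ⟨q, rfl⟩ : ∃ q, p = q + 1 := ⟨p - 1, by have := hp.pos; omega⟩
      rw [sum_range_succ', pow_zero] at hg
      have hm0 : m ≠ 0 := fun h => hn0 (by rw [hm, h, mul_zero])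
      rw [Nat.add_sub_cancel, eq_neg_of_add_eq_zero_left hg, norm_mul,
        norm_of_pow_eq_one hm0 hv]
      simp
    have e2 : ((p - 1 : ℕ) : ℂ) * ∑ a : (ZMod N)ˣ, η ^ ex a =
        ∑ a : (ZMod N)ˣ, ∑ b ∈ range (p - 1), η ^ ex (a * h b) := by
      rw [sum_comm]
      simp_rw [sum_mul_right (fun a => η ^ ex a)]
      simp
    have e3 : ((p - 1 : ℕ) : ℝ) * ‖∑ a : (ZMod N)ˣ, η ^ ex a‖ ≤ Fintype.card (ZMod N)ˣ := by
      have := congrArg norm e2
      rw [norm_mul, Complex.norm_natCast] at this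
      rw [this]
      refine (norm_sum_le _ _).trans ?_
      simp [key]
    refine le_trans (mul_le_mul_of_nonneg_right ?_ (norm_nonneg _)) e3
    exact_mod_cast (by omega : P ≤ p - 1)
  · obtain ⟨p, hp, hpp⟩ : ∃ p, p.Prime ∧ p * p ∣ n := by
      by_contra hc
      push Not at hc
      exact hsq (Nat.squarefree_iff_prime_squarefree.2 hc)
    obtain ⟨k, hk⟩ := hpp
    have hm : n = p * (p * k) := by rw [hk]; ring
    have hex : ∀ b : ℕ, ∃ h : (ZMod N)ˣ, ex h ≡ 1 + b * (p * k) [MOD n] :=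
      fun b => exists_ex hnN _ (hm ▸ coprime_A (dvd_mul_right p k) b)
    choose h hh using hex
    have key : ∀ a : (ZMod N)ˣ, ∑ b ∈ range p, η ^ ex (a * h b) = 0 := by
      intro a
      have e : ∀ b ∈ range p, η ^ ex (a * h b) = η ^ ex a * ((η ^ ex a) ^ (p * k)) ^ b :=
        fun b _ => by
          rw [hpow, pow_eq_pow_of_modEq (hh b) (hprim' a).pow_eq_one, pow_add, pow_one,
            mul_comm b, pow_mul]
      have hp2 : IsPrimitiveRoot ((η ^ ex a) ^ (p * k)) p :=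
        (hprim' a).pow (Nat.pos_of_ne_zero hn0) (by rw [hm]; ring)
      rw [sum_congr rfl e, ← mul_sum, geom_zero hp2.pow_eq_one (hp2.ne_one hp.one_lt), mul_zero]
    have e2 : (p : ℂ) * ∑ a : (ZMod N)ˣ, η ^ ex a =
        ∑ a : (ZMod N)ˣ, ∑ b ∈ range p, η ^ ex (a * h b) := by
      rw [sum_comm]
      simp_rw [sum_mul_right (fun a => η ^ ex a)]
      simp
    simp only [key, sum_const_zero] at e2
    have := (mul_eq_zero.1 e2).resolve_left (by exact_mod_cast hp.ne_zero)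
    rw [this]
    simp

end Pool.Agent.MP_f5ca18_al.H67
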