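import Pool.Agent.MP_f5ca18_al.H67.Tube

set_option autoImplicit false

open CategoryTheory CategoryTheory.Limits MonoidalCategory Module

namespace Pool.Agent.MP_f5ca18_al.H67

/-- A two-sided linear recurrence sequence whose positive terms lie in a subfield has its
zeroth term in that subfield. -/
lemma lrs_zero_mem (K : IntermediateField ℚ ℂ) {W : Type*} [AddCommGroup W] [Module ℂ W]
    [FiniteDimensional ℂ W] (t : W →ₗ[ℂ] W) (ht : Function.Injective t) (ev : W →ₗ[ℂ] ℂ) (w : W)
    (h : ∀ n, 0 < n → ev ((t ^ n) w) ∈ K) : ev w ∈ K := by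
  set a : ℕ → ℂ := fun n => ev ((t ^ n) w) with ha
  set p := t.charpoly with hp
  have hc0 : p.coeff 0 ≠ 0 := by
    intro h0
    have hdet : LinearMap.det t = 0 := by
      rw [LinearMap.det_eq_sign_charpoly_coeff, ← hp, h0, mul_zero]
    rw [LinearMap.det_eq_zero_iff_ker_ne_bot] at hdet
    exact hdet (LinearMap.ker_eq_bot.2 ht)
  set D := p.natDegree
  have hrec0 : ∀ n, ∑ j ∈ Finset.range (D + 1), p.coeff j * a (n + j) = 0 := by
    intro n
    have h1 := LinearMap.aeval_self_charpoly t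
    rw [Polynomial.aeval_eq_sum_range] at h1
    have h2 := congrArg (fun s : Module.End ℂ W => ev (s ((t ^ n) w))) h1
    simp only [LinearMap.sum_apply, LinearMap.smul_apply, map_sum, map_smul, smul_eq_mul,
      LinearMap.zero_apply, map_zero] at h2
    rw [← h2]
    refine Finset.sum_congr rfl fun j _ => ?_
    simp only [ha]
    rw [add_comm, pow_add]
    rfl
  set e : ℕ → ℂ := fun j => -p.coeff (j + 1) / p.coeff 0 with he
  have hrec : ∀ n, a n = ∑ j ∈ Finset.range D, e j * a (n + (j + 1)) := by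
    intro n
    have h1 := hrec0 n
    rw [Finset.sum_range_succ', add_zero] at h1
    have : ∑ j ∈ Finset.range D, e j * a (n + (j + 1)) =
        -(∑ j ∈ Finset.range D, p.coeff (j + 1) * a (n + (j + 1))) / p.coeff 0 := by
      rw [← Finset.sum_neg_distrib, Finset.sum_div]
      refine Finset.sum_congr rfl fun j _ => ?_
      simp only [he]
      ring
    rw [this, eq_div_iff hc0]
    linear_combination h1
  obtain ⟨π, hπ⟩ := LinearMap.exists_leftInverse_of_injective (Algebra.linearMap K ℂ)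
    (LinearMap.ker_eq_bot.2 (algebraMap K ℂ).injective)
  have hπ1 : ∀ x : K, π (x : ℂ) = x := fun x => LinearMap.congr_fun hπ x
  have hK : ∀ n, 0 < n → a n = ∑ j ∈ Finset.range D, (π (e j) : ℂ) * a (n + (j + 1)) := by
    intro n hn
    have h1 := congrArg π (hrec n)
    have h2 : π (a n) = ⟨a n, h n hn⟩ := hπ1 ⟨a n, h n hn⟩
    rw [h2, map_sum] at h1
    have h3 := congrArg (fun x : K => (x : ℂ)) h1
    simp only at h3
    rw [h3]
    push_cast
    refine Finset.sum_congr rfl fun j _ => ?_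
    have h4 : e j * a (n + (j + 1)) =
        (⟨a (n + (j + 1)), h _ (by omega)⟩ : K) • e j := by
      rw [mul_comm]; rfl
    rw [h4, map_smul, smul_eq_mul]
    push_cast
    ring
  have h0 : a 0 = ∑ j ∈ Finset.range D, (π (e j) : ℂ) * a (0 + (j + 1)) := by
    calc a 0 = ∑ i ∈ Finset.range D, e i * a (0 + (i + 1)) := hrec 0
      _ = ∑ i ∈ Finset.range D, e i *
            ∑ j ∈ Finset.range D, (π (e j) : ℂ) * a (0 + (i + 1) + (j + 1)) :=
          Finset.sum_congr rfl fun i _ => by rw [← hK _ (by omega)]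
      _ = ∑ j ∈ Finset.range D, (π (e j) : ℂ) *
            ∑ i ∈ Finset.range D, e i * a (0 + (j + 1) + (i + 1)) := by
          simp only [Finset.mul_sum]
          rw [Finset.sum_comm]
          refine Finset.sum_congr rfl fun i _ => Finset.sum_congr rfl fun j _ => ?_
          rw [show 0 + (j + 1) + (i + 1) = 0 + (i + 1) + (j + 1) by ring]
          ring
      _ = _ := Finset.sum_congr rfl fun j _ => by rw [← hrec]
  have : ev w = a 0 := by simp [ha]
  rw [this, h0]
  exact sum_mem fun j _ => mul_mem (π (e j)).2 (h _ (by omega))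

/-- the field generated by all roots of unity. -/
noncomputable def Kinf : IntermediateField ℚ ℂ :=
  IntermediateField.adjoin ℚ {z : ℂ | ∃ n, 0 < n ∧ z ^ n = 1}

lemma trace_mem_Kinf {W : Type*} [AddCommGroup W] [Module ℂ W] [FiniteDimensional ℂ W]
    (T : W →ₗ[ℂ] W) (n : ℕ) (hn : 0 < n) (hT : T ^ n = 1) : LinearMap.trace ℂ W T ∈ Kinf := by
  rw [Module.End.trace_eq_sum_roots_charpoly_of_splits (IsAlgClosed.splits _)]
  refine multiset_sum_mem _ fun μ hμ => ?_
  have h1 : Module.End.HasEigenvalue T μ := by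
    rw [Module.End.hasEigenvalue_iff_isRoot_charpoly]
    exact (Polynomial.mem_roots (LinearMap.charpoly_monic T).ne_zero).1 hμ
  obtain ⟨v, hv⟩ := h1.exists_hasEigenvector
  have h2 := hv.pow_apply n
  rw [hT, Module.End.one_apply] at h2
  have h3 : (μ ^ n - 1) • v = 0 := by rw [sub_smul, one_smul, ← h2, sub_self]
  have h4 := (smul_eq_zero.1 h3).resolve_right hv.2
  exact IntermediateField.subset_adjoin _ _ ⟨n, hn, sub_eq_zero.1 h4⟩

section Free

open FreeMonoidalCategory

/-- powers in the free monoidal category. -/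
def pwF : ℕ → FreeMonoidalCategory Unit
  | 0 => FreeMonoidalCategory.unit
  | n + 1 => FreeMonoidalCategory.tensor (pwF n) (FreeMonoidalCategory.of ())

/-- rotation in the free monoidal category. -/
def rotF : ∀ n : ℕ, FreeMonoidalCategory.Hom
    (FreeMonoidalCategory.tensor (FreeMonoidalCategory.of ()) (pwF n))
    (FreeMonoidalCategory.tensor (pwF n) (FreeMonoidalCategory.of ()))
  | 0 => (Hom.ρ_hom _).comp (Hom.l_inv _)
  | n + 1 => (Hom.α_inv _ _ _).comp ((rotF n).whiskerRight _)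

/-- iterated rotation in the free monoidal category. -/
def comF (n : ℕ) : ∀ k : ℕ, FreeMonoidalCategory.Hom
    (FreeMonoidalCategory.tensor (pwF k) (pwF n)) (FreeMonoidalCategory.tensor (pwF n) (pwF k))
  | 0 => (Hom.l_hom _).comp (Hom.ρ_inv _)
  | k + 1 => (Hom.α_hom _ _ _).comp ((Hom.whiskerLeft _ (rotF n)).comp ((Hom.α_inv _ _ _).comp
      (((comF n k).whiskerRight _).comp (Hom.α_hom _ _ _))))

variable {C : Type} [Category.{0} C] [MonoidalCategory C]

/-- powers of an object. -/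
def pw (X : C) (n : ℕ) : C := projectObj (fun _ : Unit => X) (pwF n)

/-- rotation. -/
def rot (X : C) (n : ℕ) : X ⊗ pw X n ⟶ pw X n ⊗ X := projectMapAux (fun _ : Unit => X) (rotF n)

/-- iterated rotation. -/
def com (X : C) (n k : ℕ) : pw X k ⊗ pw X n ⟶ pw X n ⊗ pw X k :=
  projectMapAux (fun _ : Unit => X) (comF n k)

lemma com_self (X : C) (n : ℕ) : com X n n = 𝟙 _ := by
  have h : (⟦comF n n⟧ : FreeMonoidalCategory.tensor (pwF n) (pwF n) ⟶
      FreeMonoidalCategory.tensor (pwF n) (pwF n)) = ⟦Hom.id _⟧ :=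
    (FreeMonoidalCategory.subsingleton_hom _ _).elim _ _
  exact congrArg (projectMap (fun _ : Unit => X) _ _) h

end Free

variable {C : Type} [Category.{0} C] [Abelian C] [Linear ℂ C] [MonoidalCategory C]
  [MonoidalPreadditive C] [MonoidalLinear ℂ C]

lemma tw_pow (X : C) (n : ℕ) (φ : V X) :
    ((tw X ^ n) φ).1 (𝟙_ C) ((ρ_ X).hom ≫ (λ_ X).inv) = φ.1 (pw X n) (rot X n) := by
  induction n generalizing φ with
  | zero => rfl
  | succ n ih =>
    rw [pow_succ, Module.End.mul_apply, ih, tw_apply]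
    rfl

namespace Fus

variable (F : Fus C)

lemma act_rot_pow (X : C) (n k : ℕ) :
    (F.act (rot X n) : Module.End ℂ (F.E (pw X n))) ^ k = F.act (com X n k) := by
  induction k with
  | zero => exact (F.act_unit (pw X n)).symm
  | succ k ih =>
    rw [pow_succ', ih]
    exact F.act_comp (rot X n) (com X n k)

/-- the basic element of `E 1`. -/
noncomputable def e0 : F.E (𝟙_ C) :=
  ⟨fun Y => F.tr Y ∘ₗ Linear.rightComp ℂ Y (λ_ Y).hom, by
    refine ⟨fun Y Y' h w => ?_, fun Y Z u => ?_⟩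
    · simp only [LinearMap.comp_apply, Linear.rightComp_apply]
      rw [Category.assoc, F.tr_cyc]
      simp
    · simp only [LinearMap.comp_apply, Linear.rightComp_apply]
      rw [← F.tr_whiskerRight]
      congr 1
      monoidal⟩

lemma e0_apply (Y : C) (u : Y ⟶ 𝟙_ C ⊗ Y) : F.e0.1 Y u = F.tr Y (u ≫ (λ_ Y).hom) := rfl

lemma eq_smul_e0 (φ : F.E (𝟙_ C)) : φ = φ.1 (𝟙_ C) (λ_ (𝟙_ C)).inv • F.e0 := by
  set c := φ.1 (𝟙_ C) (λ_ (𝟙_ C)).inv with hc
  have h := F.cyc_zero (fun Y => φ.1 Y ∘ₗ Linear.rightComp ℂ Y (λ_ Y).inv - c • F.tr Y)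
    (by
      intro Y Y' f g
      simp only [LinearMap.sub_apply, LinearMap.comp_apply, LinearMap.smul_apply,
        Linear.rightComp_apply]
      rw [F.tr_cyc, Category.assoc, φ.2.1]
      simp)
    (by
      intro i
      simp only [LinearMap.sub_apply, LinearMap.comp_apply, LinearMap.smul_apply,
        Linear.rightComp_apply, tr_id, smul_eq_mul]
      rw [hc, ← φ.2.2, E_iso φ (λ_ (F.S i)), sub_eq_zero]
      congr 1
      monoidal)
  apply Subtype.ext
  funext Y
  ext u
  have h2 := LinearMap.congr_fun (h Y) (u ≫ (λ_ Y).hom)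
  simp only [LinearMap.sub_apply, LinearMap.comp_apply, LinearMap.smul_apply,
    Linear.rightComp_apply, Category.assoc, Iso.hom_inv_id, Category.comp_id,
    LinearMap.zero_apply] at h2
  exact sub_eq_zero.1 h2

lemma e0_ne_zero : F.e0 ≠ 0 := by
  obtain ⟨i, -⟩ := F.surj _ F.unit
  intro h
  have h2 : F.e0.1 (F.S i) (λ_ _).inv = 0 := by rw [h]; rfl
  rw [e0_apply, Iso.inv_hom_id, tr_id, dim_S] at h2
  exact (F.pos i).ne' (by exact_mod_cast h2)

lemma act_zero (X : C) :
    F.act ((ρ_ X).hom ≫ (λ_ X).inv) = (F.dim X : ℂ) • LinearMap.id := by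
  have h : F.act ((ρ_ X).hom ≫ (λ_ X).inv) F.e0 = (F.dim X : ℂ) • F.e0 := by
    apply Subtype.ext
    funext Y
    ext u
    rw [act_apply, e0_apply]
    change _ = (F.dim X : ℂ) * F.tr Y (u ≫ (λ_ Y).hom)
    rw [← F.tr_whiskerLeft]
    congr 1
    monoidal
  ext1 φ
  rw [F.eq_smul_e0 φ, map_smul, h, LinearMap.smul_apply, LinearMap.id_apply, smul_comm]

/-- Dimensions are cyclotomic. -/
theorem dim_mem_Kinf [RigidCategory C] (X : C) : (F.dim X : ℂ) ∈ Kinf := by
  have := F.V_fd X
  let ev : V X →ₗ[ℂ] ℂ :=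
    { toFun := fun φ => φ.1 (𝟙_ C) ((ρ_ X).hom ≫ (λ_ X).inv)
      map_add' := fun _ _ => rfl
      map_smul' := fun _ _ => rfl }
  have h := lrs_zero_mem Kinf (tw X) (tw_injective X (HasLeftDual.leftDual X)) ev
    ⟨_, F.lam_mem X⟩ (by
      intro n hn
      change ((tw X ^ n) _).1 (𝟙_ C) ((ρ_ X).hom ≫ (λ_ X).inv) ∈ Kinf
      rw [tw_pow]
      have := F.E_fd (pw X n)
      refine trace_mem_Kinf _ n hn ?_
      rw [act_rot_pow, com_self, act_id]
      rfl)
  have hfd := F.E_fd (𝟙_ C)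
  change LinearMap.trace ℂ _ (F.act ((ρ_ X).hom ≫ (λ_ X).inv)) ∈ Kinf at h
  rw [act_zero, map_smul, LinearMap.trace_id, smul_eq_mul] at h
  have hpos : 0 < finrank ℂ (F.E (𝟙_ C)) :=
    finrank_pos_iff_exists_ne_zero.2 ⟨_, F.e0_ne_zero⟩
  have hne : ((finrank ℂ (F.E (𝟙_ C)) : ℕ) : ℂ) ≠ 0 := by exact_mod_cast hpos.ne'
  have h2 := div_mem h (natCast_mem Kinf (finrank ℂ (F.E (𝟙_ C))))
  rwa [mul_div_cancel_right₀ _ hne] at h2

end Fus

end Pool.Agent.MP_f5ca18_al.H67
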