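import Pool.Agent.MP_f5ca18_al.H67.Avg

set_option autoImplicit false

open Finset

namespace Pool.Agent.MP_f5ca18_al.H67

/-- sums of `n`-th roots of unity and their negatives. -/
def Lam (K : Type) [Field K] (n : ℕ) : AddSubgroup K := AddSubgroup.closure {w | w ^ n = 1}

/-- A field with a system of complex embeddings indexed by the units modulo `N`. -/
structure Sys (N : ℕ) [NeZero N] (K : Type) [Field K] where
  σ : (ZMod N)ˣ → K →+* ℂ
  mul : ∀ a b w, w ^ N = 1 → σ (a * b) w = σ a w ^ ex b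
  ζ : K
  hζ : IsPrimitiveRoot ζ N
  even : 2 ∣ N
  one_le : ∀ α ∈ Lam K N, α ≠ 0 → 1 ≤ ∏ a, ‖σ a α‖ ^ 2

variable {N : ℕ} [NeZero N] {K : Type} [Field K]

lemma Lam_mono {n m : ℕ} (h : n ∣ m) : Lam K n ≤ Lam K m :=
  AddSubgroup.closure_mono fun w hw => by
    obtain ⟨k, rfl⟩ := h
    have hw' : w ^ n = 1 := hw
    change w ^ (n * k) = 1
    rw [pow_mul, hw', one_pow]

/-- `β` is a sum of at most `L` roots of unity of order dividing `N`. -/
def NR (N : ℕ) (β : K) (L : ℝ) : Prop :=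
  ∃ s : Multiset K, (s.card : ℝ) ≤ L ∧ (∀ w ∈ s, w ^ N = 1) ∧ s.sum = β

omit [NeZero N] in
lemma NR.mono {β : K} {L L' : ℝ} (h : NR N β L) (hL : L ≤ L') : NR N β L' := by
  obtain ⟨s, h1, h2, h3⟩ := h
  exact ⟨s, h1.trans hL, h2, h3⟩

omit [NeZero N] in
lemma NR.zero : NR N (0 : K) 0 := ⟨0, by simp, by simp, by simp⟩

omit [NeZero N] in
lemma NR.add {β γ : K} {L L' : ℝ} (h : NR N β L) (h' : NR N γ L') : NR N (β + γ) (L + L') := by
  obtain ⟨s, h1, h2, h3⟩ := h
  obtain ⟨t, h4, h5, h6⟩ := h'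
  refine ⟨s + t, ?_, ?_, ?_⟩
  · rw [Multiset.card_add]; push_cast; linarith
  · intro w hw
    rcases Multiset.mem_add.1 hw with h | h
    · exact h2 w h
    · exact h5 w h
  · rw [Multiset.sum_add, h3, h6]

omit [NeZero N] in
lemma NR.mul {β w : K} {L : ℝ} (h : NR N β L) (hw : w ^ N = 1) : NR N (w * β) L := by
  obtain ⟨s, h1, h2, h3⟩ := h
  refine ⟨s.map (w * ·), by simpa using h1, ?_, ?_⟩
  · intro v hv
    obtain ⟨u, hu, rfl⟩ := Multiset.mem_map.1 hv
    rw [mul_pow, hw, h2 u hu, one_mul]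
  · rw [Multiset.sum_map_mul_left, Multiset.map_id', h3]

omit [NeZero N] in
lemma NR.sum {ι : Type*} (s : Finset ι) (β : ι → K) (L : ι → ℝ) (h : ∀ i ∈ s, NR N (β i) (L i)) :
    NR N (∑ i ∈ s, β i) (∑ i ∈ s, L i) := by
  classical
  induction s using Finset.induction_on with
  | empty => simpa using NR.zero
  | insert i s hi ih =>
    rw [sum_insert hi, sum_insert hi]
    exact (h i (mem_insert_self _ _)).add (ih fun j hj => h j (mem_insert_of_mem hj))

namespace Sys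

variable (S : Sys N K)

/-- mean square of the conjugates. -/
noncomputable def M (β : K) : ℝ := (∑ a, ‖S.σ a β‖ ^ 2) / Fintype.card (ZMod N)ˣ

lemma card_pos : (0 : ℝ) < Fintype.card (ZMod N)ˣ := by exact_mod_cast Fintype.card_pos

lemma M_nonneg (β : K) : 0 ≤ S.M β :=
  div_nonneg (sum_nonneg fun _ _ => by positivity) card_pos.le

lemma M_zero : S.M 0 = 0 := by simp [M]

lemma norm_root (a : (ZMod N)ˣ) {w : K} (hw : w ^ N = 1) : ‖S.σ a w‖ = 1 :=
  norm_of_pow_eq_one (NeZero.ne N) (by rw [← map_pow, hw, map_one])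

lemma M_mul {w : K} (hw : w ^ N = 1) (β : K) : S.M (w * β) = S.M β := by
  simp [M, S.norm_root _ hw]

lemma one_le_M {α : K} (hα : α ∈ Lam K N) (h0 : α ≠ 0) : 1 ≤ S.M α := by
  have hpos : ∀ a, 0 < ‖S.σ a α‖ ^ 2 := fun a =>
    pow_pos (norm_pos_iff.2 ((map_ne_zero _).2 h0)) 2
  have h1 : 0 ≤ ∑ a, Real.log (‖S.σ a α‖ ^ 2) := by
    rw [← Real.log_prod fun a _ => (hpos a).ne']
    exact Real.log_nonneg (S.one_le α hα h0)
  have h2 : ∑ a, Real.log (‖S.σ a α‖ ^ 2) ≤ ∑ a, (‖S.σ a α‖ ^ 2 - 1) :=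
    sum_le_sum fun a _ => Real.log_le_sub_one_of_pos (hpos a)
  rw [sum_sub_distrib] at h2
  rw [M, le_div_iff₀ card_pos]
  simp only [sum_const, card_univ, nsmul_eq_mul, mul_one] at h2
  linarith

lemma σ_congr {n : ℕ} (hn : n ∣ N) {α : K} (hα : α ∈ Lam K n) (a h : (ZMod N)ˣ)
    (hh : ex h ≡ 1 [MOD n]) : S.σ (a * h) α = S.σ a α := by
  induction hα using AddSubgroup.closure_induction with
  | mem w hw =>
    have hw' : w ^ n = 1 := hw
    have hN : w ^ N = 1 := by
      obtain ⟨k, hk⟩ := hn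
      rw [hk, pow_mul, hw', one_pow]
    rw [S.mul a h w hN, pow_eq_pow_of_modEq hh (by rw [← map_pow, hw', map_one]), pow_one]
  | zero => simp
  | add x y _ _ hx hy => rw [map_add, map_add, hx, hy]
  | neg x _ hx => rw [map_neg, map_neg, hx]

omit [NeZero N] in
lemma decomp {n m p : ℕ} (η : K) (hgen : ∀ w : K, w ^ n = 1 → ∃ j < p, ∃ v : K, v ^ m = 1 ∧
    w = η ^ j * v) {β : K} (hβ : β ∈ Lam K n) :
    ∃ α : ℕ → K, (∀ j, α j ∈ Lam K m) ∧ β = ∑ j ∈ range p, η ^ j * α j := by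
  induction hβ using AddSubgroup.closure_induction with
  | mem w hw =>
    obtain ⟨j, hj, v, hv, rfl⟩ := hgen w hw
    refine ⟨fun i => if i = j then v else 0, fun i => ?_, ?_⟩
    · by_cases h : i = j
      · simp only [h, if_true]
        exact AddSubgroup.subset_closure hv
      · simp only [h, if_false]
        exact zero_mem _
    · rw [sum_eq_single j]
      · simp
      · intro i _ hi
        simp [hi]
      · intro h
        exact absurd (mem_range.2 hj) h
  | zero => exact ⟨fun _ => 0, fun _ => zero_mem _, by simp⟩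
  | add x y _ _ hx hy =>
    obtain ⟨α, h1, rfl⟩ := hx
    obtain ⟨γ, h2, rfl⟩ := hy
    exact ⟨fun j => α j + γ j, fun j => add_mem (h1 j) (h2 j), by
      simp [mul_add, sum_add_distrib]⟩
  | neg x _ hx =>
    obtain ⟨α, h1, rfl⟩ := hx
    exact ⟨fun j => -α j, fun j => neg_mem (h1 j), by simp⟩

include S in
lemma exists_prim {n : ℕ} (hn : n ∣ N) : ∃ η : K, IsPrimitiveRoot η n := by
  obtain ⟨k, hk⟩ := hn
  exact ⟨S.ζ ^ k, S.hζ.pow (Nat.pos_of_ne_zero (NeZero.ne N)) (by rw [hk, mul_comm])⟩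

lemma stepA {p m : ℕ} (hp : p.Prime) (hpm : p ∣ m) (hN : p * m ∣ N) {β : K}
    (hβ : β ∈ Lam K (p * m)) : ∃ (η : K) (α : ℕ → K), η ^ N = 1 ∧ (∀ j, α j ∈ Lam K m) ∧
      β = ∑ j ∈ range p, η ^ j * α j ∧ ∑ j ∈ range p, S.M (α j) = S.M β := by
  obtain ⟨η, hη⟩ := S.exists_prim hN
  have hn0 : p * m ≠ 0 := fun h => NeZero.ne N (by simpa [h] using hN)
  have : NeZero (p * m) := ⟨hn0⟩
  have hηN : η ^ N = 1 := by
    obtain ⟨k, hk⟩ := hN
    rw [hk, pow_mul, hη.pow_eq_one, one_pow]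
  obtain ⟨α, hα, hsum⟩ := decomp (p := p) (m := m) η (fun w hw => by
    obtain ⟨i, -, rfl⟩ := hη.eq_pow_of_pow_eq_one hw
    refine ⟨i % p, Nat.mod_lt _ hp.pos, η ^ (p * (i / p)), ?_, ?_⟩
    · rw [← pow_mul, show p * (i / p) * m = p * m * (i / p) by ring, pow_mul, hη.pow_eq_one,
        one_pow]
    · rw [← pow_add, Nat.mod_add_div]) hβ
  refine ⟨η, α, hηN, hα, hsum, ?_⟩
  have hex : ∀ b : ℕ, ∃ h : (ZMod N)ˣ, ex h ≡ 1 + b * m [MOD p * m] :=
    fun b => exists_ex hN _ (coprime_A hpm b)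
  choose h hh using hex
  have key : ∀ a : (ZMod N)ˣ, ∑ b ∈ range p, ‖S.σ (a * h b) β‖ ^ 2 =
      p * ∑ j ∈ range p, ‖S.σ a (α j)‖ ^ 2 := by
    intro a
    have hpa : IsPrimitiveRoot (S.σ a η) (p * m) := hη.map_of_injective (S.σ a).injective
    have hθ : IsPrimitiveRoot (S.σ a η ^ m) p :=
      hpa.pow (Nat.pos_of_ne_zero hn0) (by ring)
    have e : ∀ b, S.σ (a * h b) β =
        ∑ j ∈ range p, (S.σ a η ^ m) ^ (j * b) * (S.σ a η ^ j * S.σ a (α j)) := by
      intro b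
      rw [hsum, map_sum]
      refine sum_congr rfl fun j _ => ?_
      have h1 : ex (h b) ≡ 1 [MOD m] := by
        refine ((hh b).of_mul_left p).trans ?_
        simp [Nat.ModEq]
      rw [map_mul, map_pow, S.σ_congr (Dvd.dvd.trans (Dvd.intro_left p rfl) hN) (hα j) a _ h1,
        S.mul a _ η hηN, pow_eq_pow_of_modEq (hh b) hpa.pow_eq_one]
      ring
    simp_rw [e]
    rw [parseval hp.ne_zero hθ]
    simp [S.norm_root a hηN]
  have e2 : (p : ℝ) * ∑ a, ‖S.σ a β‖ ^ 2 = ∑ a, ∑ b ∈ range p, ‖S.σ (a * h b) β‖ ^ 2 := by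
    rw [sum_comm]
    simp_rw [sum_mul_right (fun a => ‖S.σ a β‖ ^ 2)]
    simp
  simp_rw [key] at e2
  rw [← mul_sum, sum_comm] at e2
  have e3 := mul_left_cancel₀ (by exact_mod_cast hp.ne_zero) e2
  simp only [M]
  rw [← sum_div, e3]

lemma formulaB {p m : ℕ} (hp : p.Prime) (hpm : ¬ p ∣ m) (hN : p * m ∣ N) {η : K}
    (hη : IsPrimitiveRoot η p) (α : ℕ → K) (hα : ∀ j, α j ∈ Lam K m) :
    ((p : ℝ) - 1) * S.M (∑ j ∈ range p, η ^ j * α j) =
      p * ∑ j ∈ range p, S.M (α j) - S.M (∑ j ∈ range p, α j) := by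
  set β := ∑ j ∈ range p, η ^ j * α j with hsum
  have hηN : η ^ N = 1 := by
    obtain ⟨k, hk⟩ := hN
    rw [hk, mul_assoc, pow_mul, hη.pow_eq_one, one_pow]
  have hex : ∀ b ∈ range (p - 1), ∃ h : (ZMod N)ˣ, ex h ≡ b + 1 [MOD p] ∧ ex h ≡ 1 [MOD m] :=
    fun b hb => exists_B hp hpm hN (b + 1)
      (Nat.not_dvd_of_pos_of_lt (by omega) (by have := mem_range.1 hb; omega))
  choose! h hh using hex
  have key : ∀ a : (ZMod N)ˣ, ∑ b ∈ range (p - 1), ‖S.σ (a * h b) β‖ ^ 2 =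
      p * ∑ j ∈ range p, ‖S.σ a (α j)‖ ^ 2 - ‖S.σ a (∑ j ∈ range p, α j)‖ ^ 2 := by
    intro a
    have hθ : IsPrimitiveRoot (S.σ a η) p := hη.map_of_injective (S.σ a).injective
    have e : ∀ b ∈ range (p - 1), ‖S.σ (a * h b) β‖ ^ 2 =
        ‖∑ j ∈ range p, (S.σ a η) ^ (j * (b + 1)) * S.σ a (α j)‖ ^ 2 := by
      intro b hb
      rw [hsum, map_sum]
      congr 2
      refine sum_congr rfl fun j _ => ?_
      rw [map_mul, map_pow,
        S.σ_congr (Dvd.dvd.trans (Dvd.intro_left p rfl) hN) (hα j) a _ (hh b hb).2,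
        S.mul a _ η hηN, pow_eq_pow_of_modEq (hh b hb).1 hθ.pow_eq_one]
      ring
    rw [sum_congr rfl e, ← parseval hp.ne_zero hθ]
    obtain ⟨q, rfl⟩ : ∃ q, p = q + 1 := ⟨p - 1, by have := hp.pos; omega⟩
    rw [sum_range_succ' _ q]
    simp
  have e2 : ((p - 1 : ℕ) : ℝ) * ∑ a, ‖S.σ a β‖ ^ 2 =
      ∑ a, ∑ b ∈ range (p - 1), ‖S.σ (a * h b) β‖ ^ 2 := by
    rw [sum_comm]
    simp_rw [sum_mul_right (fun a => ‖S.σ a β‖ ^ 2)]
    simp
  simp_rw [key] at e2
  rw [sum_sub_distrib, ← mul_sum, sum_comm, Nat.cast_sub hp.one_le, Nat.cast_one] at e2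
  simp only [M]
  rw [← sum_div, ← mul_div_assoc, e2, ← mul_div_assoc, sub_div]

lemma M_pairs (p : ℕ) (α : ℕ → K) :
    ∑ i ∈ range p, ∑ j ∈ range p, S.M (α j - α i) =
      2 * (p * ∑ j ∈ range p, S.M (α j) - S.M (∑ j ∈ range p, α j)) := by
  have key : ∀ z : ℕ → ℂ, ∑ i ∈ range p, ∑ j ∈ range p, ‖z j - z i‖ ^ 2 =
      2 * (p * ∑ j ∈ range p, ‖z j‖ ^ 2 - ‖∑ j ∈ range p, z j‖ ^ 2) := by
    intro z
    apply Complex.ofReal_injective
    simp only [Complex.ofReal_sum, Complex.ofReal_mul, Complex.ofReal_sub, sq_norm_eq, map_sub,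
      map_sum, sum_mul_sum]
    have e : ∀ i j, (z j - z i) * ((starRingEnd ℂ) (z j) - (starRingEnd ℂ) (z i)) =
        z j * (starRingEnd ℂ) (z j) + z i * (starRingEnd ℂ) (z i) -
          z i * (starRingEnd ℂ) (z j) - z j * (starRingEnd ℂ) (z i) := fun i j => by ring
    simp only [e, sum_sub_distrib, sum_add_distrib, sum_const, card_range, nsmul_eq_mul]
    rw [sum_comm (f := fun i j => z j * (starRingEnd ℂ) (z i)), ← mul_sum]
    push_cast
    ring
  simp only [M, ← sum_div]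
  have : ∑ i ∈ range p, ∑ j ∈ range p, ∑ a, ‖S.σ a (α j - α i)‖ ^ 2 =
      ∑ a, ∑ i ∈ range p, ∑ j ∈ range p, ‖S.σ a (α j) - S.σ a (α i)‖ ^ 2 := by
    rw [sum_comm]
    simp_rw [sum_comm (s := range p) (t := univ), map_sub]
    refine sum_congr rfl fun a _ => sum_comm
  rw [this]
  simp_rw [key]
  rw [← mul_sum, sum_sub_distrib, ← mul_sum, sum_comm]
  simp only [map_sum]
  ring

lemma M_sum_le (s : Finset ℕ) (γ : ℕ → K) :
    S.M (∑ j ∈ s, γ j) ≤ s.card * ∑ j ∈ s, S.M (γ j) := by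
  simp only [M, ← sum_div, ← mul_div_assoc]
  refine div_le_div_of_nonneg_right ?_ card_pos.le
  rw [sum_comm, mul_sum]
  refine sum_le_sum fun a _ => ?_
  rw [map_sum]
  refine le_trans (pow_le_pow_left₀ (norm_nonneg _) (norm_sum_le _ _) 2) ?_
  exact sq_sum_le_card_mul_sum_sq

lemma card_le_sum [DecidableEq K] {m : ℕ} (hm : m ∣ N) (p : ℕ) (γ : ℕ → K)
    (hγ : ∀ j, γ j ∈ Lam K m) :
    (((range p).filter fun j => γ j ≠ 0).card : ℝ) ≤ ∑ j ∈ range p, S.M (γ j) := by
  rw [card_eq_sum_ones]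
  push_cast
  refine le_trans (sum_le_sum fun j hj => S.one_le_M (Lam_mono hm (hγ j)) (mem_filter.1 hj).2) ?_
  exact sum_le_sum_of_subset_of_nonneg (filter_subset _ _) fun j _ _ => S.M_nonneg _

lemma step {p m : ℕ} (hp : p.Prime) (hN : p * m ∣ N) {β : K}
    (hβ : β ∈ Lam K (p * m)) : ∃ (η : K) (γ : ℕ → K), η ^ N = 1 ∧ (∀ j, γ j ∈ Lam K m) ∧
      β = ∑ j ∈ range p, η ^ j * γ j ∧ ∑ j ∈ range p, S.M (γ j) ≤ 2 * S.M β ∧
      ((p ∣ m ∨ 4 * S.M β ^ 2 + 2 * S.M β ≤ p) →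
        ∑ j ∈ range p, S.M (γ j) ≤ S.M β + 1 / 2) := by
  classical
  have hM := S.M_nonneg β
  by_cases hpm : p ∣ m
  · obtain ⟨η, α, h1, h2, h3, h4⟩ := S.stepA hp hpm hN hβ
    exact ⟨η, α, h1, h2, h3, by linarith, fun _ => by linarith⟩
  have hco : p.Coprime m := (Nat.Prime.coprime_iff_not_dvd hp).2 hpm
  obtain ⟨η, hη⟩ := S.exists_prim (Dvd.dvd.trans (Dvd.intro m rfl) hN)
  have hmN : m ∣ N := Dvd.dvd.trans (Dvd.intro_left p rfl) hN
  have : NeZero p := ⟨hp.ne_zero⟩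
  have hηN : η ^ N = 1 := by
    obtain ⟨k, hk⟩ := hN
    rw [hk, mul_assoc, pow_mul, hη.pow_eq_one, one_pow]
  obtain ⟨α, hα, hsum⟩ := decomp (p := p) (m := m) η (fun w hw => by
    obtain ⟨u, v, hu, hv, rfl, -⟩ := split_root hco hw
    obtain ⟨i, hi, rfl⟩ := hη.eq_pow_of_pow_eq_one hu
    exact ⟨i, hi, v, hv, rfl⟩) hβ
  have hp0 : (0 : ℝ) < p := by exact_mod_cast hp.pos
  have hpairs := S.M_pairs p α
  rw [← S.formulaB hp hpm hN hη α hα, ← hsum] at hpairs
  obtain ⟨i, -, hi⟩ : ∃ i ∈ range p, ∑ j ∈ range p, S.M (α j - α i) ≤ 2 * S.M β := by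
    apply exists_le_of_sum_le (nonempty_range_iff.2 hp.ne_zero)
    rw [hpairs]
    simp only [sum_const, card_range, nsmul_eq_mul]
    nlinarith
  set γ : ℕ → K := fun j => α j - α i with hγ
  have hγm : ∀ j, γ j ∈ Lam K m := fun j => sub_mem (hα j) (hα i)
  have hsum' : β = ∑ j ∈ range p, η ^ j * γ j := by
    simp only [hγ, mul_sub, sum_sub_distrib, ← sum_mul]
    rw [hη.geom_sum_eq_zero hp.one_lt, zero_mul, sub_zero, hsum]
  refine ⟨η, γ, hηN, hγm, hsum', hi, fun h => ?_⟩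
  have hbig := h.resolve_left hpm
  have hB := S.formulaB hp hpm hN hη γ hγm
  rw [← hsum'] at hB
  set T := (range p).filter fun j => γ j ≠ 0 with hT
  have hX : (T.card : ℝ) ≤ 2 * S.M β := (S.card_le_sum hmN p γ hγm).trans hi
  have h1 : ∑ j ∈ range p, γ j = ∑ j ∈ T, γ j := (sum_filter_ne_zero _).symm
  have h2 : ∑ j ∈ T, S.M (γ j) ≤ ∑ j ∈ range p, S.M (γ j) :=
    sum_le_sum_of_subset_of_nonneg (filter_subset _ _) fun j _ _ => S.M_nonneg _
  have h3 := S.M_sum_le T γ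
  rw [← h1] at h3
  set A := ∑ j ∈ range p, S.M (γ j)
  have hA : 0 ≤ A := sum_nonneg fun j _ => S.M_nonneg _
  have h4 : S.M (∑ j ∈ range p, γ j) ≤ 2 * S.M β * A :=
    h3.trans (mul_le_mul hX h2 (sum_nonneg fun j _ => S.M_nonneg _) (by linarith))
  set B := S.M β
  by_contra hc
  push Not at hc
  have h5 : (p - 2 * B) * A ≤ p * B := by nlinarith
  have h6 : 0 < p - 2 * B := by
    rcases eq_or_lt_of_le hM with h | h
    · rw [← h]; simpa using hp0
    · nlinarith
  nlinarith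

lemma crude (n : ℕ) (hn : n ∣ N) {β : K} (hβ : β ∈ Lam K n) : NR N β (n * S.M β) := by
  induction n using Nat.strong_induction_on generalizing β with
  | _ n ih =>
  have hn0 : n ≠ 0 := fun h => NeZero.ne N (by simpa [h] using hn)
  by_cases h1 : n = 1
  · subst h1
    have : ∃ k : ℤ, β = k := by
      induction hβ using AddSubgroup.closure_induction with
      | mem w hw => exact ⟨1, by simpa using hw⟩
      | zero => exact ⟨0, by simp⟩
      | add x y _ _ hx hy =>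
        obtain ⟨a, rfl⟩ := hx
        obtain ⟨b, rfl⟩ := hy
        exact ⟨a + b, by simp⟩
      | neg x _ hx =>
        obtain ⟨a, rfl⟩ := hx
        exact ⟨-a, by simp⟩
    obtain ⟨k, rfl⟩ := this
    have hM : S.M (k : K) = (k : ℝ) ^ 2 := by
      simp only [M, map_intCast, Complex.norm_intCast, sq_abs, sum_const, card_univ,
        nsmul_eq_mul]
      exact mul_div_cancel_left₀ _ card_pos.ne'
    rw [hM, Nat.cast_one, one_mul]
    have hle : (k.natAbs : ℝ) ≤ (k : ℝ) ^ 2 := by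
      have := Int.natAbs_le_self_sq k
      have h2 : ((k.natAbs : ℤ) : ℝ) ≤ ((k ^ 2 : ℤ) : ℝ) := by exact_mod_cast this
      simpa using h2
    obtain ⟨r, hr⟩ := S.even
    rcases Int.natAbs_eq k with h | h
    · refine ⟨Multiset.replicate k.natAbs 1, by simpa using hle, fun w hw => ?_, ?_⟩
      · rw [Multiset.eq_of_mem_replicate hw, one_pow]
      · rw [Multiset.sum_replicate, nsmul_eq_mul, mul_one]
        conv_rhs => rw [h]
        simp only [Int.cast_natCast]
    · refine ⟨Multiset.replicate k.natAbs (-1), by simpa using hle, fun w hw => ?_, ?_⟩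
      · rw [Multiset.eq_of_mem_replicate hw, hr, pow_mul]
        simp
      · rw [Multiset.sum_replicate, nsmul_eq_mul]
        conv_rhs => rw [h]
        simp only [Int.cast_neg, Int.cast_natCast, mul_neg, mul_one]
  · obtain ⟨p, hp, m, rfl⟩ := Nat.exists_prime_and_dvd h1
    obtain ⟨η, γ, h1, h2, h3, h4, -⟩ := S.step hp hn hβ
    have hm0 : 0 < m := Nat.pos_of_ne_zero fun h => hn0 (by simp [h])
    have hlt : m < p * m := by nlinarith [hp.two_le]
    have hmN : m ∣ N := Dvd.dvd.trans (Dvd.intro_left p rfl) hn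
    have := NR.sum (range p) (fun j => η ^ j * γ j) (fun j => m * S.M (γ j)) fun j _ =>
      (ih m hlt hmN (h2 j)).mul (by rw [← pow_mul, mul_comm, pow_mul, h1, one_pow])
    rw [← h3, ← mul_sum] at this
    refine this.mono ?_
    have hp2 : (2 : ℝ) ≤ p := by exact_mod_cast hp.two_le
    have := S.M_nonneg β
    push_cast
    have hm' : (0 : ℝ) ≤ m := by positivity
    calc (m : ℝ) * ∑ j ∈ range p, S.M (γ j) ≤ m * (2 * S.M β) := by gcongr
      _ ≤ m * (p * S.M β) := by gcongr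
      _ = _ := by ring

end Sys

/-- Weak form of the theorem of Loxton. -/
theorem loxton (k : ℕ) : ∃ L : ℝ, 0 ≤ L ∧ ∀ (N : ℕ) [NeZero N] (K : Type) [Field K] (S : Sys N K)
    (n : ℕ), n ∣ N → ∀ β ∈ Lam K n, S.M β ≤ k / 2 → NR N β L := by
  classical
  induction k with
  | zero =>
    refine ⟨0, le_rfl, fun N _ K _ S n hn β hβ hM => ?_⟩
    by_cases h0 : β = 0
    · rw [h0]; exact NR.zero
    · have := S.one_le_M (Lam_mono hn hβ) h0
      simp at hM
      linarith
  | succ k ihk =>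
    obtain ⟨L, hL0, hL⟩ := ihk
    set P := (k + 1) ^ 2 + (k + 1) with hP
    refine ⟨P.factorial * (k + 1) + (k + 1) * L, by positivity, fun N _ K _ S n => ?_⟩
    induction n using Nat.strong_induction_on with
    | _ n ih =>
    intro hn β hβ hM
    have hn0 : n ≠ 0 := fun h => NeZero.ne N (by simpa [h] using hn)
    have hM0 := S.M_nonneg β
    push_cast at hM
    by_cases hgood : ∃ p m, p.Prime ∧ n = p * m ∧ (p ∣ m ∨ P ≤ p)
    · obtain ⟨p, m, hp, rfl, hpm⟩ := hgood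
      obtain ⟨η, γ, h1, h2, h3, h4, h5⟩ := S.step hp hn hβ
      have h6 := h5 (hpm.imp id fun h => by
        have : (P : ℝ) ≤ p := by exact_mod_cast h
        rw [hP] at this
        push_cast at this
        nlinarith)
      have hm0 : 0 < m := Nat.pos_of_ne_zero fun h => hn0 (by simp [h])
      have hlt : m < p * m := by nlinarith [hp.two_le]
      have hmN : m ∣ N := Dvd.dvd.trans (Dvd.intro_left p rfl) hn
      have hroot : ∀ j, (η ^ j) ^ N = 1 := fun j => by
        rw [← pow_mul, mul_comm, pow_mul, h1, one_pow]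
      set T := (range p).filter fun j => γ j ≠ 0 with hT
      have hsum : β = ∑ j ∈ T, η ^ j * γ j := by
        rw [h3, hT, sum_filter_of_ne]
        intro j _ hj h
        exact hj (by rw [h, mul_zero])
      have hTle : ∑ j ∈ T, S.M (γ j) ≤ ∑ j ∈ range p, S.M (γ j) :=
        sum_le_sum_of_subset_of_nonneg (filter_subset _ _) fun j _ _ => S.M_nonneg _
      by_cases hc : T.card ≤ 1
      · rcases card_le_one_iff_subset_singleton.1 hc with ⟨j, hj⟩
        rcases subset_singleton_iff.1 hj with h | h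
        · rw [hsum, h, sum_empty]
          exact NR.zero.mono (by positivity)
        · rw [h, sum_singleton] at hsum
          rw [hsum]
          refine (ih m hlt hmN _ (h2 j) ?_).mul (hroot j)
          rw [← S.M_mul (hroot j), ← hsum]
          push_cast
          exact hM
      · have hsmall : ∀ j ∈ T, S.M (γ j) ≤ k / 2 := by
          intro j hj
          obtain ⟨i, hi, hij⟩ := exists_mem_ne (not_le.1 hc) j
          have h7 : S.M (γ i) + S.M (γ j) ≤ ∑ l ∈ T, S.M (γ l) :=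
            add_le_sum (f := fun l => S.M (γ l)) (fun l _ => S.M_nonneg _) hi hj hij
          have h8 := S.one_le_M (Lam_mono hmN (h2 i)) (mem_filter.1 hi).2
          linarith
        have := NR.sum T (fun j => η ^ j * γ j) (fun _ => L) fun j hj =>
          (hL N K S m hmN _ (h2 j) (hsmall j hj)).mul (hroot j)
        rw [← hsum] at this
        refine this.mono ?_
        have hX : (T.card : ℝ) ≤ 2 * S.M β := (S.card_le_sum hmN p γ h2).trans h4
        simp only [sum_const, nsmul_eq_mul]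
        have : (T.card : ℝ) * L ≤ (k + 1) * L := by gcongr; linarith
        have : (0 : ℝ) ≤ P.factorial * (k + 1) := by positivity
        linarith
    · push Not at hgood
      have hsq : Squarefree n := Nat.squarefree_iff_prime_squarefree.2 fun p hp ⟨r, hr⟩ =>
        (hgood p (p * r) hp (by rw [hr]; ring)).1 (dvd_mul_right p r)
      have hdvd : n ∣ P.factorial := by
        rw [← Nat.prod_primeFactors_of_squarefree hsq]
        have : P.factorial = ∏ i ∈ Finset.Icc 1 P, i := by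
          rw [← Finset.prod_range_add_one_eq_factorial, Finset.range_eq_Ico,
            Finset.prod_Ico_add' (fun i => i) 0 P 1]
          rfl
        rw [this]
        refine Finset.prod_dvd_prod_of_subset _ _ _ fun q hq => ?_
        have hq' := Nat.mem_primeFactors.1 hq
        obtain ⟨r, hr⟩ := hq'.2.1
        exact Finset.mem_Icc.2 ⟨hq'.1.one_le, (hgood q r hq'.1 hr).2.le⟩
      have hle : (n : ℝ) ≤ P.factorial := by
        exact_mod_cast Nat.le_of_dvd (Nat.factorial_pos P) hdvd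
      refine (S.crude n hn hβ).mono ?_
      have : (n : ℝ) * S.M β ≤ P.factorial * (k + 1) := by
        gcongr
        linarith
      have : (0 : ℝ) ≤ (k + 1) * L := by positivity
      linarith

end Pool.Agent.MP_f5ca18_al.H67
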