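import Pool.Agent.MP_f5ca18_al.H67.Avg

set_option autoImplicit false

open Finset Filter Topology

namespace Pool.Agent.MP_f5ca18_al.H67

section Classes

variable {I Q : Type*} [Fintype I] [DecidableEq Q] (cl : I → Q)

/-- sum of squares over the classes. -/
noncomputable def Phi (u : I → ℂ) : ℝ :=
  ∑ q ∈ univ.image cl, ‖∑ f ∈ univ.filter (fun f => cl f = q), u f‖ ^ 2

lemma Phi_nonneg (u : I → ℂ) : 0 ≤ Phi cl u := sum_nonneg fun _ _ => by positivity

lemma sq_le_Phi (u : I → ℂ) : ‖∑ f, u f‖ ^ 2 ≤ (univ.image cl).card * Phi cl u := by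
  rw [← sum_fiberwise_of_maps_to (g := cl) (t := univ.image cl)
    (fun f hf => mem_image_of_mem cl hf)]
  refine le_trans (pow_le_pow_left₀ (norm_nonneg _) (norm_sum_le _ _) 2) ?_
  exact sq_sum_le_card_mul_sum_sq

lemma Phi_eq (u : I → ℂ) : (Phi cl u : ℂ) =
    ∑ f, ∑ g, if cl f = cl g then u f * (starRingEnd ℂ) (u g) else 0 := by
  rw [← sum_fiberwise_of_maps_to (g := cl) (t := univ.image cl)
    (fun f hf => mem_image_of_mem cl hf), Phi, Complex.ofReal_sum]
  refine sum_congr rfl fun q _ => ?_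
  rw [sq_norm_eq, map_sum, sum_mul_sum]
  refine sum_congr rfl fun f hf => ?_
  rw [(mem_filter.1 hf).2, sum_filter]
  refine sum_congr rfl fun g _ => ?_
  simp only [eq_comm]

lemma sq_eq_Phi_add (u : I → ℂ) : ((‖∑ f, u f‖ ^ 2 : ℝ) : ℂ) = Phi cl u +
    ∑ f, ∑ g, if cl f = cl g then 0 else u f * (starRingEnd ℂ) (u g) := by
  rw [Phi_eq, sq_norm_eq, map_sum, sum_mul_sum, ← sum_add_distrib]
  refine sum_congr rfl fun f _ => ?_
  rw [← sum_add_distrib]
  refine sum_congr rfl fun g _ => ?_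
  split_ifs <;> simp

end Classes

lemma card_units_le {N D : ℕ} [NeZero N] (hD : D ∣ N) :
    Fintype.card (ZMod N)ˣ ≤ D * (univ.filter fun a : (ZMod N)ˣ => ex a ≡ 1 [MOD D]).card := by
  have hD0 : D ≠ 0 := fun h => NeZero.ne N (by simpa [h] using hD)
  have : NeZero D := ⟨hD0⟩
  have h1 := (ZMod.unitsMap hD).ker.card_mul_index
  rw [Subgroup.index_ker] at h1
  have h2 : Nat.card (ZMod.unitsMap hD).range ≤ D := by
    refine (Nat.card_le_card_of_injective
      (fun x : (ZMod.unitsMap hD).range => ((x : (ZMod D)ˣ) : ZMod D)) ?_).trans ?_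
    · intro x y h
      exact Subtype.ext (Units.ext h)
    · simp
  have h3 : Nat.card (ZMod.unitsMap hD).ker ≤
      (univ.filter fun a : (ZMod N)ˣ => ex a ≡ 1 [MOD D]).card := by
    rw [← Nat.card_eq_finsetCard]
    refine Nat.card_le_card_of_injective (fun x => ⟨x.1, ?_⟩) ?_
    · rw [mem_filter]
      refine ⟨mem_univ _, ?_⟩
      have h := congrArg (fun u : (ZMod D)ˣ => (u : ZMod D)) (MonoidHom.mem_ker.1 x.2)
      simp only [ZMod.unitsMap_val, Units.val_one] at h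
      rw [← ZMod.natCast_eq_natCast_iff, ex, ZMod.natCast_val, h, Nat.cast_one]
    · intro x y h
      exact Subtype.ext (congrArg (fun z => z.1) h)
  rw [← Nat.card_eq_fintype_card, ← h1, mul_comm]
  exact Nat.mul_le_mul h2 h3

lemma core {L s N D P : ℕ} [NeZero N] (hD : D ∣ N) (hP : 0 < P) (ω : Fin L → ℂ)
    (hω : ∀ l, ω l ^ N = 1) (x : ℝ) (hx : ∀ a : (ZMod N)ˣ, ‖∑ l, ω l ^ ex a‖ ≤ x)
    {Q : Type*} [DecidableEq Q] (cl : (Fin s → Fin L) → Q) (u0 : (Fin s → Fin L) → ℂ)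
    (h1 : ∀ f g, cl f = cl g →
      (∏ i, ω (f i)) * (starRingEnd ℂ) (∏ i, ω (g i)) = u0 f * (starRingEnd ℂ) (u0 g) ∧
      (u0 f * (starRingEnd ℂ) (u0 g)) ^ D = 1)
    (h2 : ∀ f g, cl f ≠ cl g →
      ((∏ i, ω (f i)) * (starRingEnd ℂ) (∏ i, ω (g i))) ^ P.factorial ≠ 1) :
    Phi cl u0 / D - (Fintype.card (Fin s → Fin L) : ℝ) ^ 2 / P ≤ x ^ (2 * s) := by
  have hD0 : 0 < D := Nat.pos_of_ne_zero fun h => NeZero.ne N (by simpa [h] using hD)
  set G : ℝ := ((Fintype.card (ZMod N)ˣ : ℕ) : ℝ) with hG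
  have hG0 : 0 < G := by rw [hG]; exact_mod_cast Fintype.card_pos
  set y : (Fin s → Fin L) → ℂ := fun f => ∏ i, ω (f i) with hy
  set u : (ZMod N)ˣ → (Fin s → Fin L) → ℂ := fun a f => y f ^ ex a with hu
  have hpr : ∀ a f g, u a f * (starRingEnd ℂ) (u a g) = (y f * (starRingEnd ℂ) (y g)) ^ ex a :=
    fun a f g => by simp only [hu, map_pow, mul_pow]
  have hyN : ∀ f, y f ^ N = 1 := fun f => by
    simp only [hy, ← prod_pow, hω, prod_const_one]
  have hup : ∀ a, ‖∑ f, u a f‖ ^ 2 ≤ x ^ (2 * s) := by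
    intro a
    have : ∑ f, u a f = (∑ l, ω l ^ ex a) ^ s := by
      rw [Fintype.sum_pow]
      simp only [hu, hy, prod_pow]
    rw [this, norm_pow, ← pow_mul, mul_comm]
    exact pow_le_pow_left₀ (norm_nonneg _) (hx a) _
  have hsum : ∑ a, ‖∑ f, u a f‖ ^ 2 ≤ G * x ^ (2 * s) := by
    refine (sum_le_sum fun a _ => hup a).trans ?_
    simp [hG]
  have hPhi : ∀ a, ex a ≡ 1 [MOD D] → Phi cl (u a) = Phi cl u0 := by
    intro a ha
    apply Complex.ofReal_injective
    rw [Phi_eq, Phi_eq]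
    refine sum_congr rfl fun f _ => sum_congr rfl fun g _ => ?_
    split_ifs with h
    · rw [hpr, (h1 f g h).1, pow_eq_pow_of_modEq ha (h1 f g h).2, pow_one]
    · rfl
  have hlow : G * (Phi cl u0 / D) ≤ ∑ a, Phi cl (u a) := by
    have h3 : (G : ℝ) ≤ D * (univ.filter fun a : (ZMod N)ˣ => ex a ≡ 1 [MOD D]).card := by
      rw [hG]; exact_mod_cast card_units_le hD
    have hD' : (0 : ℝ) < D := by exact_mod_cast hD0
    calc G * (Phi cl u0 / D) ≤ D * (univ.filter fun a : (ZMod N)ˣ => ex a ≡ 1 [MOD D]).card *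
          (Phi cl u0 / D) := by
          have := Phi_nonneg cl u0
          gcongr
      _ = ∑ a ∈ univ.filter (fun a : (ZMod N)ˣ => ex a ≡ 1 [MOD D]), Phi cl (u a) := by
          rw [sum_congr rfl fun a ha => hPhi a (mem_filter.1 ha).2, sum_const, nsmul_eq_mul]
          field_simp
      _ ≤ _ := sum_le_sum_of_subset_of_nonneg (filter_subset _ _) fun a _ _ => Phi_nonneg cl _
  set R : ℂ := ∑ a, ∑ f, ∑ g, if cl f = cl g then 0 else u a f * (starRingEnd ℂ) (u a g) with hR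
  have hRle : ‖R‖ ≤ (Fintype.card (Fin s → Fin L) : ℝ) ^ 2 * (G / P) := by
    have hP' : (0 : ℝ) < P := by exact_mod_cast hP
    rw [hR, sum_comm]
    refine (norm_sum_le _ _).trans ?_
    have : ∀ f, ‖∑ a, ∑ g, if cl f = cl g then 0 else u a f * (starRingEnd ℂ) (u a g)‖ ≤
        Fintype.card (Fin s → Fin L) * (G / P) := by
      intro f
      rw [sum_comm]
      refine (norm_sum_le _ _).trans ?_
      have : ∀ g, ‖∑ a, if cl f = cl g then 0 else u a f * (starRingEnd ℂ) (u a g)‖ ≤ G / P := by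
        intro g
        split_ifs with h
        · simp only [sum_const_zero, norm_zero]
          positivity
        · simp only [hpr]
          rw [le_div_iff₀ hP', mul_comm]
          refine ramanujan P ?_ (h2 f g h)
          rw [mul_pow, hyN, ← map_pow, hyN, map_one, one_mul]
      refine (sum_le_sum fun g _ => this g).trans ?_
      simp
    refine (sum_le_sum fun f _ => this f).trans ?_
    simp only [sum_const, card_univ, nsmul_eq_mul]
    exact le_of_eq (by ring)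
  have hid : ((∑ a, ‖∑ f, u a f‖ ^ 2 : ℝ) : ℂ) = ((∑ a, Phi cl (u a) : ℝ) : ℂ) + R := by
    rw [Complex.ofReal_sum, Complex.ofReal_sum, hR, ← sum_add_distrib]
    exact sum_congr rfl fun a _ => sq_eq_Phi_add cl (u a)
  have hre := congrArg Complex.re hid
  rw [Complex.add_re, Complex.ofReal_re, Complex.ofReal_re] at hre
  have hR2 : -‖R‖ ≤ R.re := (abs_le.1 (Complex.abs_re_le_norm R)).1
  have : G * (Phi cl u0 / D - (Fintype.card (Fin s → Fin L) : ℝ) ^ 2 / P) ≤ G * x ^ (2 * s) := by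
    have e : G * (Phi cl u0 / D - (Fintype.card (Fin s → Fin L) : ℝ) ^ 2 / P) =
      G * (Phi cl u0 / D) - (Fintype.card (Fin s → Fin L) : ℝ) ^ 2 * (G / P) := by ring
    rw [e]
    linarith
  exact le_of_mul_le_mul_left this hG0

/-- `x` is a sum of `L` roots of unity and dominates all its conjugates. -/
def Good (L : ℕ) (x : ℝ) : Prop :=
  ∃ N : ℕ, 0 < N ∧ ∃ ω : Fin L → ℂ, (∀ l, ω l ^ N = 1) ∧ (x : ℂ) = ∑ l, ω l ∧
    ∀ c : ℕ, c.Coprime N → ‖∑ l, ω l ^ c‖ ≤ x

/-- monomials. -/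
noncomputable def mon {L : ℕ} (ω : Fin L → ℂ) (k : Fin L → ℤ) : ℂ := ∏ l, ω l ^ k l

lemma mon_add {L : ℕ} {ω : Fin L → ℂ} (h : ∀ l, ω l ≠ 0) (k k' : Fin L → ℤ) :
    mon ω (k + k') = mon ω k * mon ω k' := by
  simp only [mon, Pi.add_apply, zpow_add₀ (h _), prod_mul_distrib]

lemma mon_neg {L : ℕ} (ω : Fin L → ℂ) (k : Fin L → ℤ) : mon ω (-k) = (mon ω k)⁻¹ := by
  simp only [mon, Pi.neg_apply, zpow_neg, prod_inv_distrib]

lemma mon_zero {L : ℕ} (ω : Fin L → ℂ) : mon ω 0 = 1 := by simp [mon]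

lemma mon_pow {L N : ℕ} {ω : Fin L → ℂ} (h : ∀ l, ω l ^ N = 1) (k : Fin L → ℤ) :
    mon ω k ^ N = 1 := by
  simp only [mon, ← prod_pow]
  refine prod_eq_one fun l _ => ?_
  rw [← zpow_natCast, ← zpow_mul, mul_comm, zpow_mul, zpow_natCast, h, one_zpow]

/-- multiplicity vector of a word. -/
def cnt {L s : ℕ} (f : Fin s → Fin L) : Fin L → ℤ :=
  fun l => ((univ.filter fun i => f i = l).card : ℤ)

lemma mon_cnt {L s : ℕ} (ω : Fin L → ℂ) (f : Fin s → Fin L) :
    mon ω (cnt f) = ∏ i, ω (f i) := by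
  simp only [mon, cnt, zpow_natCast]
  rw [← prod_fiberwise_of_maps_to (g := f) (t := univ) (fun i _ => mem_univ _)]
  refine prod_congr rfl fun l _ => ?_
  rw [prod_congr rfl fun i hi => by rw [(mem_filter.1 hi).2], prod_const]

lemma mon_sub {L s N : ℕ} (hN : N ≠ 0) {ω : Fin L → ℂ} (h : ∀ l, ω l ^ N = 1)
    (f g : Fin s → Fin L) :
    (∏ i, ω (f i)) * (starRingEnd ℂ) (∏ i, ω (g i)) = mon ω (cnt f - cnt g) := by
  have h0 : ∀ l, ω l ≠ 0 := fun l hl => by simpa [hl, hN] using h l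
  rw [sub_eq_add_neg, mon_add h0, mon_neg, ← mon_cnt, ← mon_cnt,
    conj_of_pow_eq_one hN (mon_pow h _)]

lemma card_image_cnt {L s : ℕ} {Q : Type*} [DecidableEq Q] (mk : (Fin L → ℤ) → Q) :
    (univ.image fun f : Fin s → Fin L => mk (cnt f)).card ≤ (s + 1) ^ L := by
  have : (univ.image fun f : Fin s → Fin L => mk (cnt f)) ⊆
      (univ : Finset (Fin L → Fin (s + 1))).image fun c => mk fun l => ((c l : ℕ) : ℤ) := by
    intro q hq
    obtain ⟨f, -, rfl⟩ := mem_image.1 hq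
    refine mem_image.2 ⟨fun l => ⟨(univ.filter fun i => f i = l).card, ?_⟩, mem_univ _, rfl⟩
    have := card_filter_le (univ : Finset (Fin s)) fun i => f i = l
    simp only [card_univ, Fintype.card_fin] at this
    omega
  refine (card_le_card this).trans (card_image_le.trans ?_)
  simp

theorem no_acc (L : ℕ) (a : ℝ) : ¬ ∀ ε : ℝ, 0 < ε → ∃ x, a < x ∧ x < a + ε ∧ Good L x := by
  classical
  intro h
  choose x hax hxa N hN ω hω hsum hx using fun m : ℕ => h (1 / ((m : ℝ) + 1)) (by positivity)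
  have hlim : Tendsto x atTop (𝓝 a) := by
    have h1 : Tendsto (fun m : ℕ => a + 1 / ((m : ℝ) + 1)) atTop (𝓝 (a + 0)) :=
      tendsto_const_nhds.add tendsto_one_div_add_atTop_nhds_zero_nat
    rw [add_zero] at h1
    exact tendsto_of_tendsto_of_tendsto_of_le_of_le tendsto_const_nhds h1
      (fun m => (hax m).le) (fun m => (hxa m).le)
  set U := hyperfilter ℕ
  have hlimU : Tendsto x U (𝓝 a) := hlim.mono_left Nat.hyperfilter_le_atTop
  have h0 : ∀ m l, ω m l ≠ 0 := fun m l hl => by simpa [hl, (hN m).ne'] using hω m l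
  let Λ : AddSubgroup (Fin L → ℤ) :=
    { carrier := {k | ∃ z, ∀ᶠ m in (U : Filter ℕ), mon (ω m) k = z}
      add_mem' := by
        rintro k k' ⟨z, hz⟩ ⟨z', hz'⟩
        refine ⟨z * z', ?_⟩
        filter_upwards [hz, hz'] with m h1 h2
        rw [mon_add (h0 m), h1, h2]
      zero_mem' := ⟨1, Eventually.of_forall fun m => mon_zero _⟩
      neg_mem' := by
        rintro k ⟨z, hz⟩
        refine ⟨z⁻¹, ?_⟩
        filter_upwards [hz] with m h1
        rw [mon_neg, h1] }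
  have hfg : Λ.FG := by
    have := IsNoetherian.noetherian (R := ℤ) Λ.toIntSubmodule
    rw [Submodule.fg_iff_addSubgroup_fg] at this
    exact this
  obtain ⟨T, hT⟩ := hfg
  have hTz : ∀ k ∈ T, ∃ z, ∀ᶠ m in (U : Filter ℕ), mon (ω m) k = z := fun k hk => by
    have : k ∈ Λ := hT ▸ AddSubgroup.subset_closure hk
    exact this
  choose! z hz using hTz
  have hE : ∀ᶠ m in (U : Filter ℕ), ∀ k ∈ T, mon (ω m) k = z k :=
    (eventually_all_finset T).2 hz
  obtain ⟨m0, hm0⟩ := hE.exists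
  have hE2 : ∀ᶠ m in (U : Filter ℕ), ∀ k ∈ Λ, mon (ω m) k = mon (ω m0) k := by
    filter_upwards [hE] with m hm k hk
    rw [← hT] at hk
    induction hk using AddSubgroup.closure_induction with
    | mem k hk => rw [hm k hk, hm0 k hk]
    | zero => rw [mon_zero, mon_zero]
    | add k k' _ _ h1 h2 => rw [mon_add (h0 m), mon_add (h0 m0), h1, h2]
    | neg k _ h1 => rw [mon_neg, mon_neg, h1]
  have hout : ∀ k, k ∉ Λ → ∀ P : ℕ, ∀ᶠ m in (U : Filter ℕ), mon (ω m) k ^ P.factorial ≠ 1 := by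
    intro k hk P
    by_contra hc
    rw [Ultrafilter.eventually_not, not_not] at hc
    have h1 : ∀ᶠ m in (U : Filter ℕ), ∃ w ∈ (Polynomial.nthRootsFinset P.factorial (1 : ℂ) : Set ℂ),
        mon (ω m) k = w := by
      filter_upwards [hc] with m hm
      exact ⟨_, by
        rw [mem_coe, Polynomial.mem_nthRootsFinset (Nat.factorial_pos P)]
        exact hm, rfl⟩
    obtain ⟨w, -, hw⟩ := (Ultrafilter.eventually_exists_mem_iff (Finset.finite_toSet _)).1 h1
    exact hk ⟨w, hw⟩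
  set D := N m0 with hD
  have hx0 : ∀ m, 0 ≤ x m := fun m => (norm_nonneg _).trans (hx m 1 (by simp))
  have ha0 : 0 ≤ a := ge_of_tendsto' hlim hx0
  have key : ∀ s : ℕ, x m0 ^ (2 * s) ≤ ((s : ℝ) + 1) ^ L * (D * a ^ (2 * s)) := by
    intro s
    set cl : (Fin s → Fin L) → (Fin L → ℤ) ⧸ Λ := fun f => QuotientAddGroup.mk (cnt f) with hcl
    set u0 : (Fin s → Fin L) → ℂ := fun f => ∏ i, ω m0 (f i) with hu0
    have hcl' : ∀ f g, cl f = cl g ↔ cnt f - cnt g ∈ Λ := fun f g =>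
      QuotientAddGroup.eq_iff_sub_mem
    have hup : x m0 ^ (2 * s) ≤ ((s : ℝ) + 1) ^ L * Phi cl u0 := by
      have h1 := sq_le_Phi cl u0
      have h2 : ∑ f, u0 f = (x m0 : ℂ) ^ s := by
        rw [hsum, Fintype.sum_pow]
      rw [h2, norm_pow, Complex.norm_real, Real.norm_of_nonneg (hx0 m0), ← pow_mul,
        mul_comm s 2] at h1
      refine h1.trans (mul_le_mul_of_nonneg_right ?_ (Phi_nonneg _ _))
      exact_mod_cast card_image_cnt (s := s) (QuotientAddGroup.mk : _ → (Fin L → ℤ) ⧸ Λ)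
    have hlow : ∀ P : ℕ, 0 < P →
        Phi cl u0 / D - (Fintype.card (Fin s → Fin L) : ℝ) ^ 2 / P ≤ a ^ (2 * s) := by
      intro P hP
      refine ge_of_tendsto (hlimU.pow (2 * s)) ?_
      have hall : ∀ᶠ m in (U : Filter ℕ), ∀ f g : Fin s → Fin L, cnt f - cnt g ∉ Λ →
          mon (ω m) (cnt f - cnt g) ^ P.factorial ≠ 1 := by
        refine eventually_all.2 fun f => eventually_all.2 fun g => ?_
        by_cases hk : cnt f - cnt g ∈ Λ
        · exact Eventually.of_forall fun m h => absurd hk h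
        · filter_upwards [hout _ hk P] with m hm _ using hm
      filter_upwards [hE2, hall] with m hm1 hm2
      have : NeZero (N m * D) := ⟨(Nat.mul_pos (hN m) (hN m0)).ne'⟩
      refine core (N := N m * D) (Dvd.intro_left _ rfl) hP (ω m)
        (fun l => by rw [pow_mul, hω, one_pow]) (x m)
        (fun b => hx m _ ((ex_coprime b).of_dvd_right (Dvd.intro _ rfl))) cl u0 ?_ ?_
      · intro f g hfg
        rw [mon_sub (hN m).ne' (hω m), hu0, mon_sub (hN m0).ne' (hω m0)]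
        exact ⟨hm1 _ ((hcl' f g).1 hfg), mon_pow (hω m0) _⟩
      · intro f g hfg
        rw [mon_sub (hN m).ne' (hω m)]
        exact hm2 f g fun hk => hfg ((hcl' f g).2 hk)
    have hD0 : (0 : ℝ) < D := by exact_mod_cast hN m0
    have hlim2 : Tendsto (fun P : ℕ => Phi cl u0 / D -
        (Fintype.card (Fin s → Fin L) : ℝ) ^ 2 / P) atTop (𝓝 (Phi cl u0 / D - 0)) :=
      tendsto_const_nhds.sub (tendsto_const_div_atTop_nhds_zero_nat _)
    have h3 := le_of_tendsto hlim2 ((eventually_gt_atTop 0).mono hlow)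
    rw [sub_zero, div_le_iff₀ hD0, mul_comm] at h3
    exact hup.trans (mul_le_mul_of_nonneg_left h3 (by positivity))
  have hxpos : 0 < x m0 := ha0.trans_lt (hax m0)
  set r := (a / x m0) ^ 2 with hr
  have hr0 : 0 ≤ r := by positivity
  have hr1 : r < 1 := pow_lt_one₀ (by positivity) ((div_lt_one hxpos).2 (hax m0)) two_ne_zero
  have key2 : ∀ s : ℕ, 1 ≤ (2 ^ L * D) * ((s : ℝ) ^ L * r ^ s) ∨ s = 0 := by
    intro s
    rcases Nat.eq_zero_or_pos s with h | h
    · exact Or.inr h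
    left
    have h1 := key s
    have h2 : ((s : ℝ) + 1) ^ L ≤ 2 ^ L * s ^ L := by
      rw [← mul_pow]
      have : (1 : ℝ) ≤ s := by exact_mod_cast h
      exact pow_le_pow_left₀ (by positivity) (by linarith) _
    have h3 : r ^ s = a ^ (2 * s) / x m0 ^ (2 * s) := by rw [hr, ← pow_mul, div_pow]
    have h4 : 0 < x m0 ^ (2 * s) := by positivity
    rw [h3, ← mul_div_assoc, ← mul_div_assoc, le_div_iff₀ h4, one_mul]
    refine h1.trans ?_
    calc ((s : ℝ) + 1) ^ L * (D * a ^ (2 * s)) ≤ (2 ^ L * s ^ L) * (D * a ^ (2 * s)) := by gcongr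
      _ = _ := by ring
  have hlim3 : Tendsto (fun s : ℕ => (2 ^ L * D : ℝ) * ((s : ℝ) ^ L * r ^ s)) atTop
      (𝓝 ((2 ^ L * D : ℝ) * 0)) :=
    (tendsto_pow_const_mul_const_pow_of_abs_lt_one L (by rwa [abs_of_nonneg hr0])).const_mul _
  have h5 := ge_of_tendsto hlim3 ((eventually_gt_atTop 0).mono fun s hs =>
    (key2 s).resolve_right hs.ne')
  linarith

end Pool.Agent.MP_f5ca18_al.H67
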