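import Pool.Agent.MP_f5ca18_al.H67.Cyclo
import Pool.Agent.MP_f5ca18_al.H67.Loxton
import Pool.Agent.MP_f5ca18_al.H67.WellOrd

set_option autoImplicit false

open Finset

namespace Pool.Agent.MP_f5ca18_al.H67

lemma exists_cyc (N : ℕ) [NeZero N] : ∃ (K : Type) (_ : Field K) (_ : NumberField K),
    IsCyclotomicExtension {N} ℚ K := by
  refine ⟨CyclotomicField N ℚ, inferInstance, inferInstance, ?_⟩
  convert CyclotomicField.isCyclotomicExtension N ℚ
  · rfl
  · exact Subsingleton.elim _ _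

lemma exists_level {z : ℂ} (hz : z ∈ Kinf) : ∃ N : ℕ, 0 < N ∧ ∀ (M : ℕ) [NeZero M], N ∣ M →
    ∀ (K : Type) [Field K] [NumberField K] [IsCyclotomicExtension {M} ℚ K] (ι : K →+* ℂ),
      z ∈ ι.fieldRange := by
  induction hz using IntermediateField.adjoin_induction with
  | mem z hz =>
    obtain ⟨n, hn, hz⟩ := hz
    refine ⟨n, hn, fun M _ hM K _ _ _ ι => ?_⟩
    obtain ⟨k, rfl⟩ := hM
    have h1 := (IsCyclotomicExtension.zeta_spec (n * k) ℚ K).map_of_injective ι.injective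
    obtain ⟨i, -, hi⟩ := h1.eq_pow_of_pow_eq_one (ξ := z) (by rw [pow_mul, hz, one_pow])
    exact ⟨_ ^ i, by rw [map_pow]; exact hi⟩
  | algebraMap q =>
    refine ⟨1, one_pos, fun M _ _ K _ _ _ ι => ?_⟩
    exact ⟨(q : K), by simp⟩
  | add x y _ _ hx hy =>
    obtain ⟨n, hn, hx⟩ := hx
    obtain ⟨m, hm, hy⟩ := hy
    exact ⟨n * m, Nat.mul_pos hn hm, fun M _ hM K _ _ _ ι =>
      add_mem (hx M ((Dvd.intro _ rfl).trans hM) K ι) (hy M ((Dvd.intro_left _ rfl).trans hM) K ι)⟩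
  | inv x _ hx =>
    obtain ⟨n, hn, hx⟩ := hx
    exact ⟨n, hn, fun M _ hM K _ _ _ ι => inv_mem (hx M hM K ι)⟩
  | mul x y _ _ hx hy =>
    obtain ⟨n, hn, hx⟩ := hx
    obtain ⟨m, hm, hy⟩ := hy
    exact ⟨n * m, Nat.mul_pos hn hm, fun M _ hM K _ _ _ ι =>
      mul_mem (hx M ((Dvd.intro _ rfl).trans hM) K ι) (hy M ((Dvd.intro_left _ rfl).trans hM) K ι)⟩

lemma mem_adjoin_of_mem_Lam {N : ℕ} {K : Type} [Field K] (hN : N ≠ 0) {α : K} (h : α ∈ Lam K N) :
    IsIntegral ℤ α := by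
  induction h using AddSubgroup.closure_induction with
  | mem w hw =>
    have hw' : w ^ N = 1 := hw
    exact IsIntegral.of_pow (Nat.pos_of_ne_zero hN) (hw' ▸ isIntegral_one)
  | zero => exact isIntegral_zero
  | add x y _ _ hx hy => exact hx.add hy
  | neg x _ hx => exact hx.neg

open IsCyclotomicExtension.Rat in
/-- the system of embeddings of a cyclotomic field. -/
noncomputable def cycSys (N : ℕ) [NeZero N] (h2 : 2 ∣ N) (K : Type) [Field K] [NumberField K]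
    [IsCyclotomicExtension {N} ℚ K] (ι : K →+* ℂ) : Sys N K where
  σ a := ι.comp ((galEquivZMod N K).symm a : K →+* K)
  mul a b w hw := by
    simp only [RingHom.comp_apply, RingHom.coe_coe]
    rw [galEquivZMod_apply_of_pow_eq N K _ hw, galEquivZMod_apply_of_pow_eq N K _ hw,
      MulEquiv.apply_symm_apply, MulEquiv.apply_symm_apply, ← map_pow, ← pow_mul]
    congr 1
    exact pow_eq_pow_of_modEq (ex_mul a b) hw
  ζ := IsCyclotomicExtension.zeta N ℚ K
  hζ := IsCyclotomicExtension.zeta_spec N ℚ K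
  even := h2
  one_le α hα h0 := by
    have hG : IsGalois ℚ K := IsCyclotomicExtension.isGalois {N} ℚ K
    have h1 := Algebra.norm_eq_prod_automorphisms ℚ α
    have h3 : IsIntegral ℤ (Algebra.norm ℚ α) :=
      Algebra.isIntegral_norm ℚ (mem_adjoin_of_mem_Lam (NeZero.ne N) hα)
    obtain ⟨z, hz⟩ := IsIntegrallyClosed.isIntegral_iff.1 h3
    have hz0 : z ≠ 0 := by
      rintro rfl
      rw [map_zero] at hz
      exact h0 (Algebra.norm_eq_zero_iff.1 hz.symm)
    have h4 : (z : ℂ) = ∏ a : (ZMod N)ˣ, ι ((galEquivZMod N K).symm a α) := by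
      have h5 : ∏ a : (ZMod N)ˣ, (galEquivZMod N K).symm a α = ∏ σ : Gal(K/ℚ), σ α :=
        Equiv.prod_comp (galEquivZMod N K).symm.toEquiv (fun σ => σ α)
      rw [← map_prod, h5, ← h1, ← hz]
      simp
    simp only [RingHom.comp_apply, RingHom.coe_coe]
    rw [prod_pow, ← norm_prod, ← h4, Complex.norm_intCast]
    have : (1 : ℝ) ≤ |(z : ℝ)| := by exact_mod_cast Int.one_le_abs hz0
    exact one_le_pow₀ this

lemma mem_Lam_of_integral (N : ℕ) [NeZero N] (K : Type) [Field K] [NumberField K]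
    [IsCyclotomicExtension {N} ℚ K] {α : K} (h : IsIntegral ℤ α) : α ∈ Lam K N := by
  have hζ := IsCyclotomicExtension.zeta_spec N ℚ K
  obtain ⟨⟨y, hy⟩, rfl⟩ :=
    (IsCyclotomicExtension.Rat.isIntegralClosure_adjoin_singleton hζ).isIntegral_iff.1 h
  change y ∈ Lam K N
  rw [Algebra.adjoin_singleton_eq_range_aeval] at hy
  obtain ⟨p, rfl⟩ := hy
  change Polynomial.aeval _ p ∈ _
  rw [Polynomial.aeval_eq_sum_range]
  refine sum_mem fun i _ => AddSubgroup.zsmul_mem _ (AddSubgroup.subset_closure ?_) _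
  change (_ ^ i) ^ N = 1
  rw [← pow_mul, mul_comm, pow_mul, hζ.pow_eq_one, one_pow]

lemma house_le {n : ℕ} (i0 : Fin n) (d : Fin n → ℝ) (hd : ∀ i, 0 < d i) (x : ℝ)
    (m : Fin n → Fin n → ℕ) (hm : ∀ j, x * d j = ∑ k, m j k * d k) (e : Fin n → ℂ)
    (he : e i0 ≠ 0) (y : ℂ) (hy : ∀ j, y * e j = ∑ k, m j k * e k) : ‖y‖ ≤ x := by
  obtain ⟨j, -, hj⟩ := exists_max_image univ (fun j => ‖e j‖ / d j) ⟨i0, mem_univ _⟩
  set r := ‖e j‖ / d j with hr
  have hr0 : 0 < r := lt_of_lt_of_le (div_pos (norm_pos_iff.2 he) (hd i0)) (hj i0 (mem_univ _))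
  have hk : ∀ k, ‖e k‖ ≤ r * d k := fun k => (div_le_iff₀ (hd k)).1 (hj k (mem_univ _))
  have hj' : ‖e j‖ = r * d j := by rw [hr, div_mul_cancel₀ _ (hd j).ne']
  have h1 : ‖y‖ * (r * d j) ≤ x * (r * d j) := by
    rw [← hj', ← norm_mul, hy, hj', mul_left_comm, hm, mul_sum]
    refine (norm_sum_le _ _).trans (sum_le_sum fun k _ => ?_)
    rw [norm_mul, Complex.norm_natCast, mul_left_comm]
    exact mul_le_mul_of_nonneg_left (hk k) (Nat.cast_nonneg _)
  exact le_of_mul_le_mul_right h1 (mul_pos hr0 (hd j))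

theorem good_of_bound (B : ℝ) : ∃ L : ℕ, ∀ (n : ℕ) (_ : Fin n) (d : Fin n → ℝ), (∀ i, 0 < d i) →
    (∀ i, (d i : ℂ) ∈ Kinf) → ∀ (x : ℝ) (c : Fin n → ℕ), x = ∑ i, c i * d i →
    ∀ m : Fin n → Fin n → ℕ, (∀ j, x * d j = ∑ k, m j k * d k) → x ≤ B →
    ∃ L' ≤ L, Good L' x := by
  classical
  obtain ⟨k, hk⟩ := exists_nat_ge (2 * B ^ 2)
  obtain ⟨L, hL0, hL⟩ := loxton k
  refine ⟨⌊L⌋₊, fun n i0 d hd hK x c hx m hm hB => ?_⟩
  choose Nn hNn hlev using fun i => exists_level (hK i)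
  set N := 2 * ∏ i, Nn i with hN
  have hN0 : 0 < N := Nat.mul_pos two_pos (prod_pos fun i _ => hNn i)
  have : NeZero N := ⟨hN0.ne'⟩
  obtain ⟨K, _, _, _⟩ := exists_cyc N
  obtain ⟨ι⟩ : Nonempty (K →+* ℂ) := inferInstance
  choose δ hδ using fun i => hlev i N ((dvd_prod_of_mem Nn (mem_univ i)).mul_left 2) K ι
  replace hδ : ∀ i, ι (δ i) = d i := hδ
  set ξ : K := ∑ i, c i * δ i with hξ
  have hιξ : ι ξ = x := by
    rw [hξ, hx]
    simp [hδ]
  have hrel : ∀ j, ξ * δ j = ∑ k, m j k * δ k := by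
    intro j
    apply ι.injective
    rw [map_mul, hιξ, hδ, ← Complex.ofReal_mul, hm]
    simp [hδ]
  have hδ0 : δ i0 ≠ 0 := by
    intro h
    have := hδ i0
    rw [h, map_zero] at this
    exact (hd i0).ne' (by exact_mod_cast this.symm)
  have hhouse : ∀ τ : K →+* ℂ, ‖τ ξ‖ ≤ x := fun τ =>
    house_le i0 d hd x m hm (fun i => τ (δ i)) ((map_ne_zero τ).2 hδ0) (τ ξ) fun j => by
      rw [← map_mul, hrel]
      simp
  have hint : IsIntegral ℤ ξ := by
    refine isIntegral_of_smul_mem_submodule (Submodule.span ℤ (Set.range δ)) ?_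
      (Submodule.fg_span (Set.finite_range δ)) ξ ?_
    · intro h
      exact hδ0 (Submodule.span_eq_bot.1 h _ ⟨i0, rfl⟩)
    · intro v hv
      induction hv using Submodule.span_induction with
      | mem v hv =>
        obtain ⟨j, rfl⟩ := hv
        rw [smul_eq_mul, hrel]
        refine Submodule.sum_mem _ fun k _ => ?_
        rw [← nsmul_eq_mul]
        exact nsmul_mem (Submodule.subset_span (Set.mem_range_self k)) _
      | zero => simp
      | add u v _ _ hu hv => rw [smul_add]; exact add_mem hu hv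
      | smul a u _ hu => rw [smul_comm]; exact Submodule.smul_mem _ _ hu
  set S := cycSys N (Dvd.intro _ rfl) K ι with hS
  have hx0 : 0 ≤ x := (norm_nonneg _).trans (hhouse ι)
  have hM : S.M ξ ≤ k / 2 := by
    rw [Sys.M, div_le_iff₀ Sys.card_pos]
    have : ∀ a, ‖S.σ a ξ‖ ^ 2 ≤ k / 2 := fun a => by
      have h1 : ‖S.σ a ξ‖ ^ 2 ≤ B ^ 2 :=
        pow_le_pow_left₀ (norm_nonneg _) ((hhouse _).trans hB) 2
      linarith
    refine (sum_le_sum fun a _ => this a).trans ?_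
    simp [mul_comm]
  obtain ⟨s, hs1, hs2, hs3⟩ := hL N K S N dvd_rfl ξ (mem_Lam_of_integral N K hint) hM
  obtain ⟨l, rfl⟩ := Quotient.exists_rep s
  have hsum : ∀ τ : K →+* ℂ, τ ξ = ∑ i : Fin l.length, τ (l.get i) := by
    intro τ
    rw [← map_sum, ← hs3]
    simp
  have hl : ∀ i : Fin l.length, l.get i ^ N = 1 := fun i => hs2 _ (by simp)
  have h1 : S.σ 1 = ι := by
    ext w
    change ι ((IsCyclotomicExtension.Rat.galEquivZMod N K).symm 1 w) = ι w
    rw [map_one, AlgEquiv.one_apply]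
  refine ⟨l.length, Nat.le_floor (by simpa using hs1), N, hN0, fun i => ι (l.get i),
    fun i => by rw [← map_pow, hl, map_one], by rw [← hιξ, hsum], fun c hc => ?_⟩
  obtain ⟨a, ha⟩ := exists_ex (N := N) dvd_rfl c hc
  refine le_trans (le_of_eq ?_) (hhouse (S.σ a))
  rw [hsum]
  congr 1
  refine sum_congr rfl fun i _ => ?_
  have := S.mul 1 a _ (hl i)
  rw [one_mul, h1] at this
  rw [this]
  exact (pow_eq_pow_of_modEq ha (by rw [← map_pow, hl, map_one])).symm

open CategoryTheory MonoidalCategory in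
theorem no_acc_dim (a : ℝ) : ∃ ε : ℝ, 0 < ε ∧ ∀ (C : Type) [Category.{0} C] [Abelian C]
    [Linear ℂ C] [MonoidalCategory C] [MonoidalPreadditive C] [MonoidalLinear ℂ C]
    [RigidCategory C] (F : Fus C) (X : C), a < F.dim X → a + ε ≤ F.dim X := by
  obtain ⟨L, hL⟩ := good_of_bound (a + 1)
  have h := fun L' => no_acc L' a
  push Not at h
  choose e he0 he using h
  refine ⟨min 1 ((range (L + 1)).inf' ⟨0, by simp⟩ e), lt_min one_pos ?_, ?_⟩
  · rw [lt_inf'_iff]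
    exact fun L' _ => he0 L'
  · intro C _ _ _ _ _ _ _ F X hX
    by_contra hc
    push Not at hc
    obtain ⟨i0, -⟩ := F.surj _ F.unit
    obtain ⟨L', hL', hg⟩ := hL F.n i0 F.d F.pos (fun i => F.dim_S i ▸ F.dim_mem_Kinf _) (F.dim X)
      (fun i => Module.finrank ℂ (F.S i ⟶ X)) rfl
      (fun j k => Module.finrank ℂ (F.S k ⟶ X ⊗ F.S j))
      (fun j => by rw [← F.dim_S j, ← F.dim_tensor]; rfl)
      (by linarith [min_le_left 1 ((range (L + 1)).inf' ⟨0, by simp⟩ e)])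
    refine he L' _ hX (hc.trans_le ?_) hg
    have := inf'_le e (mem_range.2 (Nat.lt_succ_of_le hL'))
    linarith [min_le_right 1 ((range (L + 1)).inf' ⟨0, by simp⟩ e)]

end Pool.Agent.MP_f5ca18_al.H67
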