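import Mathlib

set_option autoImplicit false

open CategoryTheory CategoryTheory.Limits MonoidalCategory Module

namespace Pool.Agent.MP_f5ca18_al.H67

/-- The data of a fusion category together with a positive character of its fusion rules. -/
structure Fus (C : Type) [Category.{0} C] [Abelian C] [Linear ℂ C] [MonoidalCategory C] where
  n : ℕ
  S : Fin n → C
  d : Fin n → ℝ
  fd : ∀ X Y : C, FiniteDimensional ℂ (X ⟶ Y)
  unit : Simple (𝟙_ C)
  simple : ∀ i, Simple (S i)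
  inj : ∀ i j, Nonempty (S i ≅ S j) → i = j
  surj : ∀ Y : C, Simple Y → ∃ i, Nonempty (Y ≅ S i)
  split : ∀ (X Y : C) (f : Y ⟶ X), Mono f → ∃ g : X ⟶ Y, f ≫ g = 𝟙 Y
  pos : ∀ i, 0 < d i
  mul : ∀ i j, d i * d j = ∑ k, (Module.finrank ℂ (S k ⟶ S i ⊗ S j) : ℝ) * d k

variable {C : Type} [Category.{0} C] [Abelian C] [Linear ℂ C] [MonoidalCategory C]

/-- conjugation map on endomorphisms. -/
def conjL {W Y : C} (f : W ⟶ Y) (g : Y ⟶ W) : (W ⟶ W) →ₗ[ℂ] (Y ⟶ Y) where
  toFun u := g ≫ u ≫ f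
  map_add' u v := by simp [Preadditive.add_comp, Preadditive.comp_add]
  map_smul' c u := by simp

omit [MonoidalCategory C] in
lemma finrank_lt_of_retract {W Y : C} [FiniteDimensional ℂ (Y ⟶ Y)] (f : W ⟶ Y) (g : Y ⟶ W)
    (hfg : f ≫ g = 𝟙 W) (hne : ∀ u : W ⟶ W, g ≫ u ≫ f ≠ 𝟙 Y) :
    finrank ℂ (W ⟶ W) < finrank ℂ (Y ⟶ Y) := by
  have hinj : Function.Injective (conjL f g) := by
    intro u v huv
    have h : g ≫ u ≫ f = g ≫ v ≫ f := huv
    have h2 : f ≫ (g ≫ u ≫ f) ≫ g = f ≫ (g ≫ v ≫ f) ≫ g := by rw [h]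
    simpa [hfg, reassoc_of% hfg] using h2
  rw [← LinearMap.finrank_range_of_inj hinj]
  apply Submodule.finrank_lt
  intro htop
  have : 𝟙 Y ∈ LinearMap.range (conjL f g) := by rw [htop]; trivial
  obtain ⟨u, hu⟩ := this
  exact hne u hu

namespace Fus

variable (F : Fus C)

/-- morphisms factoring through one of the simple objects. -/
def fac (Y : C) : Set (Y ⟶ Y) := {f | ∃ (i : Fin F.n) (p : Y ⟶ F.S i) (q : F.S i ⟶ Y), f = p ≫ q}

lemma conj_mem_span {W Y : C} (f : W ⟶ Y) (g : Y ⟶ W) (u : W ⟶ W)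
    (hu : u ∈ Submodule.span ℂ (F.fac W)) : g ≫ u ≫ f ∈ Submodule.span ℂ (F.fac Y) := by
  have : (Submodule.span ℂ (F.fac W)).map (conjL f g) ≤ Submodule.span ℂ (F.fac Y) := by
    rw [Submodule.map_span, Submodule.span_le]
    rintro _ ⟨_, ⟨i, p, q, rfl⟩, rfl⟩
    exact Submodule.subset_span ⟨i, g ≫ p, q ≫ f, by simp [conjL]⟩
  exact this ⟨u, hu, rfl⟩

lemma id_mem_span (Y : C) : 𝟙 Y ∈ Submodule.span ℂ (F.fac Y) := by
  induction h : finrank ℂ (Y ⟶ Y) using Nat.strong_induction_on generalizing Y with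
  | _ m ih =>
  have := F.fd
  by_cases hs : Simple Y
  · obtain ⟨i, ⟨e⟩⟩ := F.surj Y hs
    exact Submodule.subset_span ⟨i, e.hom, e.inv, by simp⟩
  · have : ∃ (W : C) (f : W ⟶ Y) (_ : Mono f), ¬ (IsIso f ↔ f ≠ 0) := by
      by_contra hc
      push Not at hc
      exact hs ⟨fun {W} f hf => hc W f hf⟩
    obtain ⟨W, f, hf, hW⟩ := this
    by_cases h0 : f = 0
    · have hiso : IsIso f := by
        by_contra hn
        exact hW ⟨fun h => absurd h hn, fun h => absurd h0 h⟩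
      have : 𝟙 Y = 0 := by
        rw [← cancel_epi f, h0]
        simp
      rw [this]
      exact Submodule.zero_mem _
    · have hniso : ¬ IsIso f := fun h => hW ⟨fun _ => h0, fun _ => h⟩
      obtain ⟨g, hfg⟩ := F.split Y W f hf
      have hq : (𝟙 Y - g ≫ f) ≫ g = 0 := by simp [Preadditive.sub_comp, hfg]
      let q := kernel.lift g _ hq
      let k := kernel.ι g
      have hqk : q ≫ k = 𝟙 Y - g ≫ f := kernel.lift_ι _ _ _
      have hkg : k ≫ g = 0 := kernel.condition g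
      have hkq : k ≫ q = 𝟙 _ := by
        rw [← cancel_mono k, Category.assoc, hqk]
        simp [Preadditive.comp_sub, reassoc_of% hkg]
      have h1 : finrank ℂ (W ⟶ W) < m := by
        rw [← h]
        refine finrank_lt_of_retract f g hfg fun u hu => hniso ?_
        refine ⟨⟨g ≫ u, ?_, by simpa using hu⟩⟩
        rw [← cancel_mono f]
        simp [hu]
      have h2 : finrank ℂ (kernel g ⟶ kernel g) < m := by
        rw [← h]
        refine finrank_lt_of_retract k q hkq fun u hu => h0 ?_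
        have hg : g = 0 := by
          have : (q ≫ u ≫ k) ≫ g = 0 := by simp [hkg]
          rwa [hu, Category.id_comp] at this
        have : 𝟙 W = 0 := by rw [← hfg, hg]; simp
        rw [← Category.id_comp f, this]
        simp
      have e : 𝟙 Y = g ≫ 𝟙 W ≫ f + q ≫ 𝟙 (kernel g) ≫ k := by
        simp [hqk]
      rw [e]
      exact Submodule.add_mem _ (F.conj_mem_span f g _ (ih _ h1 W rfl))
        (F.conj_mem_span k q _ (ih _ h2 _ rfl))

/-- A functional killing everything of the form `p ≫ w` with `p` into a simple object vanishes. -/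
lemma vanish {Y Z : C} (φ : (Y ⟶ Z) →ₗ[ℂ] ℂ)
    (h : ∀ (i : Fin F.n) (p : Y ⟶ F.S i) (w : F.S i ⟶ Z), φ (p ≫ w) = 0) : φ = 0 := by
  ext u
  have key : ∀ v ∈ Submodule.span ℂ (F.fac Y), φ (v ≫ u) = 0 := by
    intro v hv
    induction hv using Submodule.span_induction with
    | mem x hx =>
      obtain ⟨i, p, q, rfl⟩ := hx
      rw [Category.assoc]
      exact h i p _
    | zero => simp
    | add x y _ _ hx hy => rw [Preadditive.add_comp, map_add, hx, hy, add_zero]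
    | smul c x _ hx => rw [Linear.smul_comp, map_smul, hx, smul_zero]
  simpa using key _ (F.id_mem_span Y)

/-- Uniqueness of cyclic functionals. -/
lemma cyc_zero (φ : ∀ Y : C, (Y ⟶ Y) →ₗ[ℂ] ℂ)
    (hc : ∀ (Y Y' : C) (f : Y ⟶ Y') (g : Y' ⟶ Y), φ Y (f ≫ g) = φ Y' (g ≫ f))
    (h0 : ∀ i, φ (F.S i) (𝟙 _) = 0) (Y : C) : φ Y = 0 := by
  apply F.vanish
  intro i p w
  rw [hc]
  have := F.fd
  have := F.simple i
  obtain ⟨c, hc'⟩ := endomorphism_simple_eq_smul_id ℂ (w ≫ p)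
  rw [← hc', map_smul, h0, smul_zero]

/-- the weighted trace. -/
noncomputable def tr (Y : C) : (Y ⟶ Y) →ₗ[ℂ] ℂ where
  toFun u := ∑ i, (F.d i : ℂ) * LinearMap.trace ℂ _ (Linear.rightComp ℂ (F.S i) u)
  map_add' u v := by
    rw [← Finset.sum_add_distrib]
    refine Finset.sum_congr rfl fun i _ => ?_
    rw [← mul_add, ← map_add]
    congr 2
    ext x
    simp [Preadditive.comp_add]
  map_smul' c u := by
    rw [RingHom.id_apply, smul_eq_mul, Finset.mul_sum]
    refine Finset.sum_congr rfl fun i _ => ?_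
    have : Linear.rightComp ℂ (F.S i) (c • u) = c • Linear.rightComp ℂ (F.S i) u := by
      ext x
      simp
    rw [this, map_smul, smul_eq_mul]
    ring

lemma tr_apply (Y : C) (u : Y ⟶ Y) :
    F.tr Y u = ∑ i, (F.d i : ℂ) * LinearMap.trace ℂ _ (Linear.rightComp ℂ (F.S i) u) := rfl

lemma tr_cyc (Y Y' : C) (f : Y ⟶ Y') (g : Y' ⟶ Y) : F.tr Y (f ≫ g) = F.tr Y' (g ≫ f) := by
  have := F.fd
  rw [tr_apply, tr_apply]
  refine Finset.sum_congr rfl fun i _ => ?_
  have h1 : Linear.rightComp ℂ (F.S i) (f ≫ g) =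
      (Linear.rightComp ℂ (F.S i) g) ∘ₗ (Linear.rightComp ℂ (F.S i) f) := by
    ext x; simp
  have h2 : Linear.rightComp ℂ (F.S i) (g ≫ f) =
      (Linear.rightComp ℂ (F.S i) f) ∘ₗ (Linear.rightComp ℂ (F.S i) g) := by
    ext x; simp
  rw [h1, h2, LinearMap.trace_comp_comm']

/-- the real dimension of an object. -/
noncomputable def dim (Y : C) : ℝ := ∑ i, (finrank ℂ (F.S i ⟶ Y) : ℝ) * F.d i

lemma tr_id (Y : C) : F.tr Y (𝟙 Y) = (F.dim Y : ℂ) := by
  have := F.fd
  rw [tr_apply, dim]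
  push_cast
  refine Finset.sum_congr rfl fun i _ => ?_
  have : Linear.rightComp ℂ (F.S i) (𝟙 Y) = LinearMap.id := by
    ext x; simp
  rw [this, LinearMap.trace_id, mul_comm]

lemma dim_S (j : Fin F.n) : F.dim (F.S j) = F.d j := by
  have := F.fd
  have := F.simple
  rw [dim, Finset.sum_eq_single j]
  · rw [finrank_endomorphism_simple_eq_one]
    simp
  · intro i _ hij
    rw [finrank_hom_simple_simple, if_neg (fun h => hij (F.inj _ _ h))]
    simp
  · simp

variable [MonoidalPreadditive C] [MonoidalLinear ℂ C]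

/-- right whiskering as a linear map. -/
def wR (Y Y' Z : C) : (Y ⟶ Y') →ₗ[ℂ] (Y ⊗ Z ⟶ Y' ⊗ Z) where
  toFun u := u ▷ Z
  map_add' u v := by simp
  map_smul' c u := by simp

/-- left whiskering as a linear map. -/
def wL (Z Y Y' : C) : (Y ⟶ Y') →ₗ[ℂ] (Z ⊗ Y ⟶ Z ⊗ Y') where
  toFun u := Z ◁ u
  map_add' u v := by simp
  map_smul' c u := by simp

lemma tr_whiskerRight_S (Y : C) (u : Y ⟶ Y) (j : Fin F.n) :
    F.tr (Y ⊗ F.S j) (u ▷ F.S j) = F.tr Y u * F.d j := by
  have h := F.cyc_zero (fun Y => F.tr (Y ⊗ F.S j) ∘ₗ wR Y Y (F.S j) - (F.d j : ℂ) • F.tr Y)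
    (by
      intro Y Y' f g
      simp only [LinearMap.sub_apply, LinearMap.comp_apply, LinearMap.smul_apply, wR,
        LinearMap.coe_mk, AddHom.coe_mk, comp_whiskerRight]
      rw [F.tr_cyc, F.tr_cyc Y])
    (by
      intro i
      simp only [LinearMap.sub_apply, LinearMap.comp_apply, LinearMap.smul_apply, wR,
        LinearMap.coe_mk, AddHom.coe_mk, id_whiskerRight, tr_id, dim_S, smul_eq_mul]
      rw [dim, ← F.mul]
      push_cast
      ring) Y
  have h2 := LinearMap.congr_fun h u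
  simp only [LinearMap.sub_apply, LinearMap.comp_apply, LinearMap.smul_apply, wR,
    LinearMap.coe_mk, AddHom.coe_mk, LinearMap.zero_apply, smul_eq_mul] at h2
  rw [sub_eq_zero.1 h2, mul_comm]

lemma tr_tensor (Y Z : C) (u : Y ⟶ Y) (v : Z ⟶ Z) :
    F.tr (Y ⊗ Z) (u ▷ Z ≫ Y ◁ v) = F.tr Y u * F.tr Z v := by
  have h := F.cyc_zero (fun Z => F.tr (Y ⊗ Z) ∘ₗ Linear.leftComp ℂ (Y ⊗ Z) (u ▷ Z) ∘ₗ wL Y Z Z
      - (F.tr Y u) • F.tr Z)
    (by
      intro Z Z' f g
      simp only [LinearMap.sub_apply, LinearMap.comp_apply, LinearMap.smul_apply, wL,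
        LinearMap.coe_mk, AddHom.coe_mk, whiskerLeft_comp, Linear.leftComp_apply]
      rw [F.tr_cyc Z, ← Category.assoc, F.tr_cyc, ← Category.assoc, whisker_exchange,
        Category.assoc])
    (by
      intro i
      simp only [LinearMap.sub_apply, LinearMap.comp_apply, LinearMap.smul_apply, wL,
        LinearMap.coe_mk, AddHom.coe_mk, whiskerLeft_id, tr_id, dim_S, smul_eq_mul,
        Linear.leftComp_apply, Category.comp_id, tr_whiskerRight_S, sub_self]) Z
  have h2 := LinearMap.congr_fun h v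
  simp only [LinearMap.sub_apply, LinearMap.comp_apply, LinearMap.smul_apply, wL,
    LinearMap.coe_mk, AddHom.coe_mk, LinearMap.zero_apply, smul_eq_mul,
    Linear.leftComp_apply] at h2
  exact sub_eq_zero.1 h2

lemma tr_whiskerRight (Y Z : C) (u : Y ⟶ Y) :
    F.tr (Y ⊗ Z) (u ▷ Z) = F.tr Y u * F.dim Z := by
  simpa [tr_id] using F.tr_tensor Y Z u (𝟙 Z)

lemma tr_whiskerLeft (Y Z : C) (v : Z ⟶ Z) :
    F.tr (Y ⊗ Z) (Y ◁ v) = F.dim Y * F.tr Z v := by
  simpa [tr_id] using F.tr_tensor Y Z (𝟙 Y) v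

lemma dim_tensor (Y Z : C) : F.dim (Y ⊗ Z) = F.dim Y * F.dim Z := by
  have := F.tr_whiskerRight Y Z (𝟙 Y)
  rw [id_whiskerRight, tr_id, tr_id] at this
  exact_mod_cast this

end Fus

end Pool.Agent.MP_f5ca18_al.H67
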