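import Pool.Agent.MP_f5ca18_al.H67.Semi

set_option autoImplicit false

open CategoryTheory CategoryTheory.Limits MonoidalCategory Module

namespace Pool.Agent.MP_f5ca18_al.H67

variable {C : Type} [Category.{0} C] [Abelian C] [Linear ℂ C] [MonoidalCategory C]
  [MonoidalPreadditive C] [MonoidalLinear ℂ C]

namespace Fus

variable (F : Fus C)

/-- cyclic functionals on `Hom(Y, B ⊗ Y)` on which right tensoring acts by the dimension. -/
def E (B : C) : Submodule ℂ (∀ Y : C, (Y ⟶ B ⊗ Y) →ₗ[ℂ] ℂ) where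
  carrier := {φ | (∀ (Y Y' : C) (h : Y ⟶ Y') (w : Y' ⟶ B ⊗ Y), φ Y (h ≫ w) = φ Y' (w ≫ B ◁ h)) ∧
    ∀ (Y Z : C) (u : Y ⟶ B ⊗ Y), φ (Y ⊗ Z) (u ▷ Z ≫ (α_ B Y Z).hom) = φ Y u * F.dim Z}
  add_mem' := by
    rintro φ ψ ⟨h1, h2⟩ ⟨h3, h4⟩
    refine ⟨fun Y Y' h w => ?_, fun Y Z u => ?_⟩
    · simp only [Pi.add_apply, LinearMap.add_apply, h1 Y Y' h w, h3 Y Y' h w]
    · simp only [Pi.add_apply, LinearMap.add_apply, h2, h4, add_mul]
  zero_mem' := ⟨fun _ _ _ _ => rfl, fun _ _ _ => by simp⟩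
  smul_mem' := by
    rintro c φ ⟨h1, h2⟩
    refine ⟨fun Y Y' h w => ?_, fun Y Z u => ?_⟩
    · simp only [Pi.smul_apply, LinearMap.smul_apply, h1 Y Y' h w]
    · simp only [Pi.smul_apply, LinearMap.smul_apply, h2, smul_eq_mul, mul_assoc]

variable {F}

omit [MonoidalPreadditive C] [MonoidalLinear ℂ C] in
lemma E_iso {B : C} (φ : F.E B) {Y Y' : C} (e : Y ≅ Y') (u : Y' ⟶ B ⊗ Y') :
    φ.1 Y' u = φ.1 Y (e.hom ≫ u ≫ B ◁ e.inv) := by
  rw [φ.2.1]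
  simp [← whiskerLeft_comp]

variable (F)

omit [MonoidalPreadditive C] [MonoidalLinear ℂ C] in
lemma E_fd (B : C) : FiniteDimensional ℂ (F.E B) := by
  have := F.fd
  let r : F.E B →ₗ[ℂ] (∀ i : Fin F.n, (F.S i ⟶ B ⊗ F.S i) →ₗ[ℂ] ℂ) :=
    { toFun := fun φ i => φ.1 (F.S i)
      map_add' := fun _ _ => rfl
      map_smul' := fun _ _ => rfl }
  refine FiniteDimensional.of_injective r ?_
  rw [← LinearMap.ker_eq_bot, LinearMap.ker_eq_bot']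
  intro φ hφ
  apply Subtype.ext
  funext Y
  apply F.vanish
  intro i p w
  rw [φ.2.1]
  have : φ.1 (F.S i) = 0 := congrFun hφ i
  rw [this]
  rfl

/-- one step of the annular action on morphisms. -/
def step {X A A' : C} (f : X ⊗ A ⟶ A' ⊗ X) (Y : C) :
    (Y ⟶ A ⊗ Y) →ₗ[ℂ] (X ⊗ Y ⟶ A' ⊗ (X ⊗ Y)) where
  toFun u := X ◁ u ≫ (α_ X A Y).inv ≫ f ▷ Y ≫ (α_ A' X Y).hom
  map_add' u v := by simp [Preadditive.add_comp]
  map_smul' c u := by simp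

lemma step_apply {X A A' : C} (f : X ⊗ A ⟶ A' ⊗ X) (Y : C) (u : Y ⟶ A ⊗ Y) :
    step f Y u = X ◁ u ≫ (α_ X A Y).inv ≫ f ▷ Y ≫ (α_ A' X Y).hom := rfl

/-- the annular action. -/
def act {X A A' : C} (f : X ⊗ A ⟶ A' ⊗ X) : F.E A' →ₗ[ℂ] F.E A where
  toFun φ := ⟨fun Y => φ.1 (X ⊗ Y) ∘ₗ step f Y, by
    refine ⟨fun Y Y' h w => ?_, fun Y Z u => ?_⟩
    · simp only [LinearMap.comp_apply, step_apply]
      rw [whiskerLeft_comp, Category.assoc, φ.2.1]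
      congr 1
      simp only [whiskerLeft_comp, Category.assoc]
      rw [← associator_naturality_right, ← whisker_exchange_assoc]
      monoidal
    · simp only [LinearMap.comp_apply, step_apply]
      rw [← φ.2.2, E_iso φ (α_ X Y Z)]
      congr 1
      monoidal⟩
  map_add' _ _ := rfl
  map_smul' _ _ := rfl

lemma act_apply {X A A' : C} (f : X ⊗ A ⟶ A' ⊗ X) (φ : F.E A') (Y : C) (u : Y ⟶ A ⊗ Y) :
    (F.act f φ).1 Y u =
      φ.1 (X ⊗ Y) (X ◁ u ≫ (α_ X A Y).inv ≫ f ▷ Y ≫ (α_ A' X Y).hom) := rfl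

/-- functoriality in the outer object. -/
def mapE {A A' : C} (k : A ⟶ A') : F.E A' →ₗ[ℂ] F.E A where
  toFun φ := ⟨fun Y => φ.1 Y ∘ₗ Linear.rightComp ℂ Y (k ▷ Y), by
    refine ⟨fun Y Y' h w => ?_, fun Y Z u => ?_⟩
    · simp only [LinearMap.comp_apply, Linear.rightComp_apply]
      rw [Category.assoc, φ.2.1, Category.assoc, Category.assoc, whisker_exchange]
    · simp only [LinearMap.comp_apply, Linear.rightComp_apply]
      rw [← φ.2.2]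
      congr 1
      monoidal⟩
  map_add' _ _ := rfl
  map_smul' _ _ := rfl

omit [MonoidalPreadditive C] [MonoidalLinear ℂ C] in
lemma mapE_apply {A A' : C} (k : A ⟶ A') (φ : F.E A') (Y : C) (u : Y ⟶ A ⊗ Y) :
    (F.mapE k φ).1 Y u = φ.1 Y (u ≫ k ▷ Y) := rfl

lemma act_left {X A A' A'' : C} (k : A ⟶ A') (g : X ⊗ A' ⟶ A'' ⊗ X) :
    F.act (X ◁ k ≫ g) = F.mapE k ∘ₗ F.act g := by
  ext φ Y u
  simp only [LinearMap.comp_apply, act_apply, mapE_apply]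
  congr 1
  monoidal

lemma act_right {X A A' A'' : C} (g : X ⊗ A ⟶ A' ⊗ X) (k : A' ⟶ A'') :
    F.act (g ≫ k ▷ X) = F.act g ∘ₗ F.mapE k := by
  ext φ Y u
  simp only [LinearMap.comp_apply, act_apply, mapE_apply]
  congr 1
  monoidal

lemma act_comp {X Y A A' A'' : C} (f : X ⊗ A ⟶ A' ⊗ X) (g : Y ⊗ A' ⟶ A'' ⊗ Y) :
    F.act f ∘ₗ F.act g = F.act ((α_ Y X A).hom ≫ Y ◁ f ≫ (α_ Y A' X).inv ≫ g ▷ X ≫
      (α_ A'' Y X).hom) := by
  ext φ Z u
  simp only [LinearMap.comp_apply, act_apply]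
  rw [E_iso φ (α_ Y X Z)]
  congr 1
  monoidal

lemma act_unit (B : C) : F.act ((λ_ B).hom ≫ (ρ_ B).inv) = LinearMap.id := by
  ext φ Z u
  simp only [act_apply, LinearMap.id_apply]
  rw [E_iso φ (λ_ Z) u]
  congr 1
  monoidal

lemma act_id (B : C) : F.act (𝟙 (B ⊗ B)) = LinearMap.id := by
  ext φ Z u
  simp only [act_apply, LinearMap.id_apply]
  have := φ.2.1 Z (B ⊗ Z) u (𝟙 _)
  simp only [Category.comp_id, Category.id_comp] at this
  simp [this]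

/-- the trace of the annular action. -/
noncomputable def lam (X A : C) : (X ⊗ A ⟶ A ⊗ X) →ₗ[ℂ] ℂ where
  toFun f := LinearMap.trace ℂ _ (F.act f)
  map_add' f g := by
    rw [← map_add]
    congr 1
    ext φ Z u
    simp [act_apply, Preadditive.add_comp, Preadditive.comp_add]
  map_smul' c f := by
    rw [RingHom.id_apply, ← map_smul]
    congr 1
    ext φ Z u
    simp [act_apply]

end Fus

/-- cyclic functionals on `Hom(X ⊗ A, A ⊗ X)`. -/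
def V (X : C) : Submodule ℂ (∀ A : C, (X ⊗ A ⟶ A ⊗ X) →ₗ[ℂ] ℂ) where
  carrier := {φ | ∀ (A A' : C) (k : A ⟶ A') (g : X ⊗ A' ⟶ A ⊗ X),
    φ A (X ◁ k ≫ g) = φ A' (g ≫ k ▷ X)}
  add_mem' := by
    intro φ ψ h1 h2 A A' k g
    simp only [Pi.add_apply, LinearMap.add_apply, h1 A A' k g, h2 A A' k g]
  zero_mem' := fun _ _ _ _ => rfl
  smul_mem' := by
    intro c φ h1 A A' k g
    simp only [Pi.smul_apply, LinearMap.smul_apply, h1 A A' k g]

lemma Fus.lam_mem (F : Fus C) (X : C) : (fun A => F.lam X A) ∈ V X := by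
  intro A A' k g
  have := F.E_fd A
  have := F.E_fd A'
  change LinearMap.trace ℂ _ (F.act _) = LinearMap.trace ℂ _ (F.act _)
  rw [F.act_left, F.act_right, LinearMap.trace_comp_comm']

lemma Fus.V_fd (F : Fus C) (X : C) : FiniteDimensional ℂ (V X) := by
  have := F.fd
  let r : V X →ₗ[ℂ] (∀ i : Fin F.n, (X ⊗ F.S i ⟶ F.S i ⊗ X) →ₗ[ℂ] ℂ) :=
    { toFun := fun φ i => φ.1 (F.S i)
      map_add' := fun _ _ => rfl
      map_smul' := fun _ _ => rfl }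
  refine FiniteDimensional.of_injective r ?_
  rw [← LinearMap.ker_eq_bot, LinearMap.ker_eq_bot']
  intro φ hφ
  apply Subtype.ext
  funext A
  ext f
  have h := F.vanish (φ.1 A ∘ₗ Linear.rightComp ℂ (X ⊗ A) f ∘ₗ Fus.wL X A A) (by
    intro i p w
    simp only [LinearMap.comp_apply, Fus.wL, LinearMap.coe_mk, AddHom.coe_mk, whiskerLeft_comp,
      Linear.rightComp_apply, Category.assoc]
    rw [φ.2]
    have : φ.1 (F.S i) = 0 := congrFun hφ i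
    rw [this]
    rfl)
  simpa [Fus.wL] using LinearMap.congr_fun h (𝟙 A)

/-- the twist. -/
def tw (X : C) : V X →ₗ[ℂ] V X where
  toFun φ := ⟨fun A => φ.1 (A ⊗ X) ∘ₗ Linear.leftComp ℂ _ (α_ X A X).inv ∘ₗ
      Fus.wR (X ⊗ A) (A ⊗ X) X, by
    intro A A' k g
    simp only [LinearMap.comp_apply, Fus.wR, LinearMap.coe_mk, AddHom.coe_mk,
      Linear.leftComp_apply, comp_whiskerRight]
    rw [← Category.assoc (α_ X A' X).inv, ← φ.2]
    congr 1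
    monoidal⟩
  map_add' _ _ := rfl
  map_smul' _ _ := rfl

lemma tw_apply (X : C) (φ : V X) (A : C) (f : X ⊗ A ⟶ A ⊗ X) :
    (tw X φ).1 A f = φ.1 (A ⊗ X) ((α_ X A X).inv ≫ f ▷ X) := rfl

lemma tw_injective (X Y : C) [ExactPairing Y X] : Function.Injective (tw X) := by
  rw [← LinearMap.ker_eq_bot, LinearMap.ker_eq_bot']
  intro φ hφ
  apply Subtype.ext
  funext B
  ext g
  let k : X ⊗ (Y ⊗ B) ⟶ B := (α_ X Y B).inv ≫ ε_ Y X ▷ B ≫ (λ_ B).hom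
  let m : B ⟶ (Y ⊗ B) ⊗ X :=
    (λ_ B).inv ≫ η_ Y X ▷ B ≫ (α_ Y X B).hom ≫ Y ◁ g ≫ (α_ Y B X).inv
  have h0 : (tw X φ).1 (Y ⊗ B) (k ≫ m) = 0 := by rw [hφ]; rfl
  rw [tw_apply, ← φ.2, whiskerLeft_comp, Category.assoc, φ.2] at h0
  have e : (X ◁ m ≫ (α_ X (Y ⊗ B) X).inv) ≫ k ▷ X = g := by
    calc (X ◁ m ≫ (α_ X (Y ⊗ B) X).inv) ≫ k ▷ X
        = 𝟙 _ ⊗≫ (X ◁ η_ Y X) ▷ B ⊗≫ ((X ⊗ Y) ◁ g ≫ ε_ Y X ▷ (B ⊗ X)) ⊗≫ 𝟙 _ := by
          simp only [k, m]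
          monoidal
      _ = 𝟙 _ ⊗≫ (X ◁ η_ Y X ⊗≫ ε_ Y X ▷ X) ▷ B ⊗≫ g := by
          rw [whisker_exchange]
          monoidal
      _ = g := by
          rw [ExactPairing.coevaluation_evaluation'']
          monoidal
  rw [e] at h0
  exact h0

end Pool.Agent.MP_f5ca18_al.H67
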